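import Pool.Agent.H577.CN.Global

set_option autoImplicit false
set_option linter.unusedSectionVars false

/-! # The sum of the roots is zero -/

namespace Pool.Agent.H577.CN

open NumberField IsDedekindDomain Pool.Agent.W7.FH Pool.Agent.H577.UQ Pool.Agent.H577.SQ
  ComplexConjugate

variable {K : Type} [Field K] [NumberField K]

lemma prod_cyc (f : Fin 3 → ℝ) (i : Fin 3) : f 0 * f 1 * f 2 = f i * f (i + 1) * f (i + 2) := by
  fin_cases i
  · rfl
  · change f 0 * f 1 * f 2 = f 1 * f 2 * f 0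
    ring
  · change f 0 * f 1 * f 2 = f 2 * f 0 * f 1
    ring

lemma sum_cyc (f : Fin 3 → K) (i : Fin 3) : f 0 + f 1 + f 2 = f i + (f (i + 1) + f (i + 2)) := by
  fin_cases i
  · change f 0 + f 1 + f 2 = f 0 + (f 1 + f 2)
    ring
  · change f 0 + f 1 + f 2 = f 1 + (f 2 + f 0)
    ring
  · change f 0 + f 1 + f 2 = f 2 + (f 0 + f 1)
    ring

lemma sum_Sm (t : Fin 3 → K) : Sm t 0 + Sm t 1 + Sm t 2 = 2 * (t 0 + t 1 + t 2) := by
  change (t 1 + t 2) + (t 2 + t 0) + (t 0 + t 1) = _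
  ring

section

variable {t : Fin 3 → K} {p : ℕ} {u : Fin 3 → K} {κ : K} {j : Fin 3 → FinitePlace K → ℕ}
  (hD : Dat t p u κ j) (ht : ∀ i, t i ≠ 0)

include hD ht

/-- the places above `p` -/
lemma Dat.above (hp : p.Prime) (hF : (t 0) ^ p + (t 1) ^ p + (t 2) ^ p = 0)
    (v : FinitePlace K) (hv : v (p : K) < 1) : v (u 0 + u 1 + u 2) < v (u 0) := by
  have hj : ∀ i, j i v = 0 := by
    intro i
    by_contra h1
    exact hv.ne (hD.one v i h1).1
  have hu : ∀ i, v (u i) = v (u 0) := by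
    intro i
    have h1 := hD.eq v i 0
    rwa [hj, hj, pow_zero, mul_one, mul_one] at h1
  have hr := hD.rel ht 0 v
  rw [hj, pow_zero, mul_one] at hr
  set m := mx v (t 0) (t 1) (t 2) with hm
  have hm0 : 0 < m := hD.mx0 ht v
  have hg : v (κ * u 0 ^ p) = m := by rw [map_mul, map_pow, hr]
  have hg0 : κ * u 0 ^ p ≠ 0 := mul_ne_zero hD.κ0 (pow_ne_zero _ (hD.u0 0))
  have h1 := frob v hp hv (a := t 0) (b := t 1) (c := t 2) hg0
    (by rw [hg]; exact le_mx1 v _ _ _) (by rw [hg]; exact le_mx2 v _ _ _)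
    (by rw [hg]; exact le_mx3 v _ _ _)
  rw [hF, sub_zero, hg, map_pow] at h1
  have h2 : v (t 0 + t 1 + t 2) < m := lt_of_pow_lt_pow_left₀ p hm0.le h1
  have h3 : κ * (u 0 ^ p + u 1 ^ p + u 2 ^ p) = 2 * (t 0 + t 1 + t 2) := by
    rw [← sum_Sm, hD.S, hD.S, hD.S]
    ring
  have h4 : v κ * v (u 0 ^ p + u 1 ^ p + u 2 ^ p) < v κ * v (u 0) ^ p := by
    rw [← map_mul, h3, hr, map_mul]
    have h5 : v (2 : K) ≤ 1 := by exact_mod_cast natCast_le_one v 2
    have h6 := apply_nonneg v (t 0 + t 1 + t 2)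
    calc v (2 : K) * v (t 0 + t 1 + t 2) ≤ 1 * v (t 0 + t 1 + t 2) := by gcongr
      _ < m := by rw [one_mul]; exact h2
  have h5 : v (u 0 ^ p + u 1 ^ p + u 2 ^ p) < v (u 0) ^ p :=
    lt_of_mul_lt_mul_left h4 (apply_nonneg _ _)
  have h6 := frob v hp hv (a := u 0) (b := u 1) (c := u 2) (hD.u0 0) le_rfl (hu 1).le (hu 2).le
  have h7 : v ((u 0 + u 1 + u 2) ^ p) < v (u 0) ^ p := by
    have e : (u 0 + u 1 + u 2) ^ p = ((u 0 + u 1 + u 2) ^ p - (u 0 ^ p + u 1 ^ p + u 2 ^ p)) +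
        (u 0 ^ p + u 1 ^ p + u 2 ^ p) := by ring
    rw [e]
    exact v_add_lt v h6 h5
  rw [map_pow] at h7
  exact lt_of_pow_lt_pow_left₀ p (apply_nonneg _ _) h7

/-- the local inequality -/
lemma Dat.loc_le (hp : p.Prime) (h5 : 5 ≤ p) (hF : (t 0) ^ p + (t 1) ^ p + (t 2) ^ p = 0)
    (v : FinitePlace K) (c : ℝ) (hc : c = 1 ∨ v (p : K) < 1 ∧ c = nrm v) :
    v (u 0 + u 1 + u 2) *
      ((nrm v : ℝ) ^ j 0 v * (nrm v : ℝ) ^ j 1 v * (nrm v : ℝ) ^ j 2 v) * c ≤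
      v (u 0) * (nrm v : ℝ) ^ j 0 v := by
  have hodd : Odd p := hp.odd_of_ne_two (by omega)
  have hN := one_lt_nrm' v
  by_cases hj : ∀ i, j i v = 0
  · rw [hj, hj, hj, pow_zero, mul_one, mul_one, mul_one, mul_one]
    have hu : ∀ i, v (u i) = v (u 0) := by
      intro i
      have h1 := hD.eq v i 0
      rwa [hj, hj, pow_zero, mul_one, mul_one] at h1
    rcases hc with rfl | ⟨h1, rfl⟩
    · rw [mul_one]
      exact v_add_le v (v_add_le v le_rfl (hu 1).le) (hu 2).le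
    · have h2 := hD.above ht hp hF v h1
      have hu0 : 0 < v (u 0) := FinitePlace.pos_iff.mpr (hD.u0 0)
      have h3 : v ((u 0 + u 1 + u 2) / u 0) < 1 := by
        rw [map_div₀, div_lt_one hu0]
        exact h2
      have h4 := le_inv_nrm v h3
      rw [map_div₀, div_le_iff₀ hu0] at h4
      calc v (u 0 + u 1 + u 2) * (nrm v : ℝ) ≤ (((nrm v : ℕ) : ℝ)⁻¹ * v (u 0)) * nrm v := by
            gcongr
        _ = v (u 0) := by field_simp
  · push Not at hj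
    obtain ⟨i, hi⟩ := hj
    have hc1 : c = 1 := by
      rcases hc with h1 | h1
      · exact h1
      · exact absurd (hD.one v i hi).1 h1.1.ne
    have j1 := hD.only v i (i + 1) (n1 i) hi
    have j2 := hD.only v i (i + 2) (n2 i) hi
    have h1 : (nrm v : ℝ) ^ j 0 v * (nrm v : ℝ) ^ j 1 v * (nrm v : ℝ) ^ j 2 v =
        (nrm v : ℝ) ^ j i v * (nrm v : ℝ) ^ j (i + 1) v * (nrm v : ℝ) ^ j (i + 2) v :=
      prod_cyc (fun i => (nrm v : ℝ) ^ j i v) i
    rw [j1, j2, pow_zero, mul_one, mul_one] at h1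
    rw [h1, hc1, mul_one, ← hD.eq v i 0]
    have h2 := (hD.pairs ht hp hodd i v hi).1
    have h3 : v (u 0 + u 1 + u 2) ≤ v (u i) := by
      rw [sum_cyc u i]
      exact v_add_le v le_rfl h2
    gcongr

/-- either the sum of the roots is zero, or the sums are units -/
theorem Dat.delta (hK : Module.finrank ℚ K = 2) {σ τ : K →ₐ[ℚ] ℂ} {s : K ≃ₐ[ℚ] K}
    (hE : Emb K σ τ s) (hτ : ∀ x, τ x = conj (σ x)) (hp : p.Prime) (h7 : 7 ≤ p)
    (hF : (t 0) ^ p + (t 1) ^ p + (t 2) ^ p = 0) :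
    u 0 + u 1 + u 2 = 0 ∨ UnitCase (t 0) (t 1) (t 2) := by
  classical
  by_cases hδ : u 0 + u 1 + u 2 = 0
  · exact Or.inl hδ
  right
  have hodd : Odd p := hp.odd_of_ne_two (by omega)
  have hFi := fermat_cyc t hF
  have hS : ∀ i, Sm t i ≠ 0 := fun i => add_ne_zero_of_fermat hodd (ht i) (hFi i)
  have hτn : ∀ x, ‖τ x‖ = ‖σ x‖ := by
    intro x
    rw [hτ, Complex.norm_conj]
  obtain ⟨vp, hvp⟩ := exists_place hK hp
  set T : Finset (FinitePlace K) :=
    (Finset.univ.biUnion fun i => (FinitePlace.hasFiniteMulSupport (ht i)).toFinset) ∪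
    ((Finset.univ.biUnion fun i => (FinitePlace.hasFiniteMulSupport (hS i)).toFinset) ∪
    ((Finset.univ.biUnion fun i => (FinitePlace.hasFiniteMulSupport (hD.u0 i)).toFinset) ∪
    ((FinitePlace.hasFiniteMulSupport hδ).toFinset ∪ {vp}))) with hT
  have hmem : ∀ (f : Fin 3 → K) (hf : ∀ i, f i ≠ 0) (v : FinitePlace K),
      v ∉ (Finset.univ.biUnion fun i => (FinitePlace.hasFiniteMulSupport (hf i)).toFinset) →
      ∀ i, v (f i) = 1 := by
    intro f hf v hv i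
    by_contra h1
    apply hv
    rw [Finset.mem_biUnion]
    exact ⟨i, Finset.mem_univ _, (Set.Finite.mem_toFinset _).2 h1⟩
  have hTt : ∀ v ∉ T, ∀ i, v (t i) = 1 := by
    intro v hv
    rw [hT, Finset.mem_union, not_or] at hv
    exact hmem t ht v hv.1
  have hTS : ∀ v ∉ T, ∀ i, v (Sm t i) = 1 := by
    intro v hv
    rw [hT, Finset.mem_union, not_or, Finset.mem_union, not_or] at hv
    exact hmem (Sm t) hS v hv.2.1
  have hTu : ∀ v ∉ T, ∀ i, v (u i) = 1 := by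
    intro v hv
    rw [hT, Finset.mem_union, not_or, Finset.mem_union, not_or, Finset.mem_union, not_or] at hv
    exact hmem u hD.u0 v hv.2.2.1
  have hTδ : ∀ v ∉ T, v (u 0 + u 1 + u 2) = 1 := by
    intro v hv
    rw [hT, Finset.mem_union, not_or, Finset.mem_union, not_or, Finset.mem_union, not_or,
      Finset.mem_union, not_or] at hv
    by_contra h1
    exact hv.2.2.2.1 ((Set.Finite.mem_toFinset _).2 h1)
  have hvpT : vp ∈ T := by
    rw [hT]
    simp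
  have hN : ∀ v : FinitePlace K, (1 : ℝ) < nrm v := fun v => one_lt_nrm' v
  set r : Fin 3 → ℕ := fun i => ∏ v ∈ T, nrm v ^ j i v with hr
  have hrR : ∀ i, (r i : ℝ) = ∏ v ∈ T, (nrm v : ℝ) ^ j i v := by
    intro i
    rw [hr]
    push_cast
    rfl
  have hr1 : ∀ i, 1 ≤ r i := by
    intro i
    exact Finset.one_le_prod' fun v _ => Nat.one_le_pow _ _ (by have := one_lt_nrm v; omega)
  set R : ℝ := ∏ v ∈ T, (v (u 0) * (nrm v : ℝ) ^ j 0 v) with hR
  have hR0 : 0 < R := by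
    apply Finset.prod_pos
    intro v _
    have h1 : 0 < v (u 0) := FinitePlace.pos_iff.mpr (hD.u0 0)
    have h2 : (0 : ℝ) < nrm v := by linarith [hN v]
    positivity
  have hsq : ∀ x : K, ((|Algebra.norm ℚ x| : ℚ) : ℝ) = ‖σ x‖ ^ 2 := by
    intro x
    rw [hE.norm, hτn, sq]
  have hnpos : ∀ x : K, x ≠ 0 → 0 < ‖σ x‖ := fun x hx => norm_pos_iff.2 ((map_ne_zero σ).2 hx)
  -- the roots
  have hru : ∀ i, (r i : ℝ) = R * ‖σ (u i)‖ ^ 2 := by
    intro i
    have h1 : (∏ v ∈ T, v (u i)) * (r i : ℝ) = R := by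
      rw [hrR, ← Finset.prod_mul_distrib, hR]
      exact Finset.prod_congr rfl fun v _ => hD.eq v i 0
    rw [prodT (hD.u0 i) (fun v hv => hTu v hv i), hsq] at h1
    have h2 := hnpos _ (hD.u0 i)
    rw [← h1]
    field_simp
  -- the sum of the roots
  have hrδ : (p : ℝ) * ((r 0 : ℝ) * r 1 * r 2) ≤ R * ‖σ (u 0 + u 1 + u 2)‖ ^ 2 := by
    have h1 : (∏ v ∈ T, v (u 0 + u 1 + u 2)) * ((r 0 : ℝ) * r 1 * r 2) *
        (∏ v ∈ T, if v = vp then (nrm v : ℝ) else 1) ≤ R := by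
      rw [hrR, hrR, hrR, ← Finset.prod_mul_distrib, ← Finset.prod_mul_distrib,
        ← Finset.prod_mul_distrib, ← Finset.prod_mul_distrib, hR]
      apply Finset.prod_le_prod
      · intro v _
        have h1 := apply_nonneg v (u 0 + u 1 + u 2)
        have h2 : (0 : ℝ) < nrm v := by linarith [hN v]
        split_ifs
        · positivity
        · positivity
      · intro v _
        apply hD.loc_le ht hp (by omega) hF v
        split_ifs with h2
        · right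
          exact ⟨by rw [h2]; exact hvp, rfl⟩
        · left
          rfl
    rw [Finset.prod_ite_eq' T vp, if_pos hvpT, prodT hδ hTδ, hsq] at h1
    have h2 := hnpos _ hδ
    have h3 : (p : ℝ) ≤ nrm vp := by exact_mod_cast nrm_ge vp hp hvp
    have h4 : (‖σ (u 0 + u 1 + u 2)‖ ^ 2)⁻¹ * ((r 0 : ℝ) * r 1 * r 2) * p ≤ R := by
      refine le_trans ?_ h1
      gcongr
    have h5 : (‖σ (u 0 + u 1 + u 2)‖ ^ 2)⁻¹ * ((r 0 : ℝ) * r 1 * r 2) * p =
        (p : ℝ) * ((r 0 : ℝ) * r 1 * r 2) / ‖σ (u 0 + u 1 + u 2)‖ ^ 2 := by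
      field_simp
    rw [h5, div_le_iff₀ (by positivity)] at h4
    exact h4
  have htri : ‖σ (u 0 + u 1 + u 2)‖ ≤ ‖σ (u 0)‖ + ‖σ (u 1)‖ + ‖σ (u 2)‖ := by
    rw [map_add, map_add]
    exact norm_add₃_le
  have hreal : (p : ℝ) * ((r 0 : ℝ) * r 1 * r 2) ≤ 3 * ((r 0 : ℝ) + r 1 + r 2) := by
    have h1 : ‖σ (u 0 + u 1 + u 2)‖ ^ 2 ≤
        3 * (‖σ (u 0)‖ ^ 2 + ‖σ (u 1)‖ ^ 2 + ‖σ (u 2)‖ ^ 2) := by
      have h2 := pow_le_pow_left₀ (norm_nonneg _) htri 2
      nlinarith [sq_nonneg (‖σ (u 0)‖ - ‖σ (u 1)‖), sq_nonneg (‖σ (u 1)‖ - ‖σ (u 2)‖),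
        sq_nonneg (‖σ (u 2)‖ - ‖σ (u 0)‖)]
    calc _ ≤ R * ‖σ (u 0 + u 1 + u 2)‖ ^ 2 := hrδ
      _ ≤ R * (3 * (‖σ (u 0)‖ ^ 2 + ‖σ (u 1)‖ ^ 2 + ‖σ (u 2)‖ ^ 2)) := by gcongr
      _ = 3 * (R * ‖σ (u 0)‖ ^ 2 + R * ‖σ (u 1)‖ ^ 2 + R * ‖σ (u 2)‖ ^ 2) := by ring
      _ = _ := by rw [← hru, ← hru, ← hru]
  have hnat : p * (r 0 * r 1 * r 2) ≤ 3 * (r 0 + r 1 + r 2) := by exact_mod_cast hreal
  have hall : ∀ i, r i = 1 := by
    have a0 := hr1 0
    have a1 := hr1 1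
    have a2 := hr1 2
    obtain ⟨A, hA⟩ : ∃ A, A = r 0 := ⟨_, rfl⟩
    obtain ⟨B, hB⟩ : ∃ B, B = r 1 := ⟨_, rfl⟩
    obtain ⟨C, hC⟩ : ∃ C, C = r 2 := ⟨_, rfl⟩
    have hnat' : 7 * (A * B * C) ≤ 3 * (A + B + C) := by
      rw [hA, hB, hC]
      exact (Nat.mul_le_mul_right _ h7).trans hnat
    have b0 : 1 ≤ A := by rw [hA]; exact hr1 0
    have b1 : 1 ≤ B := by rw [hB]; exact hr1 1
    have b2 : 1 ≤ C := by rw [hC]; exact hr1 2
    have h1 : A + B ≤ A * B + 1 := by nlinarith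
    have h2 : A * B + C ≤ A * B * C + 1 := by
      have : 1 ≤ A * B := Nat.mul_pos b0 b1
      nlinarith
    have h3 : A * B * C ≤ 1 := by omega
    have h4 : 1 ≤ A * B := Nat.mul_pos b0 b1
    have h5 : A * B ≤ 1 := by nlinarith
    have h6 : C ≤ 1 := by nlinarith
    have h7 : A ≤ 1 := by nlinarith
    have h8 : B ≤ 1 := by nlinarith
    intro i
    fin_cases i
    · change r 0 = 1
      omega
    · change r 1 = 1
      omega
    · change r 2 = 1
      omega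
  have hj : ∀ (v : FinitePlace K) i, j i v = 0 := by
    intro v i
    by_contra h1
    by_cases hv : v ∈ T
    · have h2 : nrm v ^ j i v ∣ r i := Finset.dvd_prod_of_mem _ hv
      rw [hall i] at h2
      have h3 := Nat.dvd_one.1 h2
      have h4 := Nat.one_lt_pow h1 (one_lt_nrm v)
      omega
    · have h2 := (hD.loc i v).2.resolve_left h1
      have h3 := h2.2.2.2
      rw [mx_cyc] at h3
      have h4 : v (t (i + 1) + t (i + 2)) = 1 := hTS v hv i
      rw [h4] at h3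
      unfold mx at h3
      rw [hTt v hv, hTt v hv, hTt v hv] at h3
      simp at h3
  have hSm : ∀ i (v : FinitePlace K), v (Sm t i) = mx v (t 0) (t 1) (t 2) := by
    intro i v
    have h1 := (hD.loc i v).1
    rw [hj v i, pow_zero, one_pow, mul_one, mx_cyc] at h1
    exact h1
  intro v
  exact ⟨hSm 2 v, hSm 0 v, hSm 1 v⟩

end

end Pool.Agent.H577.CN
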