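import Pool.Agent.H577.CN.Places
import Pool.Agent.H577.SQ.Imag

set_option autoImplicit false
set_option linter.unusedSectionVars false

/-! # The roots of the sums -/

namespace Pool.Agent.H577.CN

open NumberField IsDedekindDomain Pool.Agent.W7.FH Pool.Agent.H577.UQ Pool.Agent.H577.SQ
  ComplexConjugate

variable {K : Type} [Field K] [NumberField K]

lemma f11 : ∀ i : Fin 3, i + 1 + 1 = i + 2 := by decide
lemma f12 : ∀ i : Fin 3, i + 1 + 2 = i := by decide
lemma f21 : ∀ i : Fin 3, i + 2 + 1 = i := by decide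
lemma f22 : ∀ i : Fin 3, i + 2 + 2 = i + 1 := by decide
lemma n1 : ∀ i : Fin 3, i ≠ i + 1 := by decide
lemma n2 : ∀ i : Fin 3, i ≠ i + 2 := by decide

/-- local and global data of a solution -/
structure Dat (t : Fin 3 → K) (p : ℕ) (u : Fin 3 → K) (κ : K) (j : Fin 3 → FinitePlace K → ℕ) :
    Prop where
  κ0 : κ ≠ 0
  u0 : ∀ i, u i ≠ 0
  S : ∀ i, Sm t i = κ * u i ^ p
  loc : ∀ i v, Lc v p (t (i + 1)) (t (i + 2)) (t i) (j i v)
  only : ∀ v i k, i ≠ k → j i v ≠ 0 → j k v = 0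
  eq : ∀ v i k, v (u i) * (nrm v : ℝ) ^ j i v = v (u k) * (nrm v : ℝ) ^ j k v
  one : ∀ v i, j i v ≠ 0 → v (p : K) = 1 ∧ Nat.Coprime p (nrm v - 1)

theorem dat_exists (hK : Module.finrank ℚ K = 2) {σ τ : K →ₐ[ℚ] ℂ} {s : K ≃ₐ[ℚ] K}
    (hE : Emb K σ τ s) (hτ : ∀ x, τ x = conj (σ x)) {p : ℕ} (hp : p.Prime) (h5 : 5 ≤ p)
    (hh : ¬ p ∣ classNumber K) (t : Fin 3 → K) (ht : ∀ i, t i ≠ 0)
    (hF : (t 0) ^ p + (t 1) ^ p + (t 2) ^ p = 0)
    (hbad : ∀ (v : FinitePlace K) i, v (Sm t i) < mx v (t 0) (t 1) (t 2) →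
      v (p : K) = 1 ∧ ¬ (p ∣ nrm v - 1 ∧ ∃ w : K, v (w ^ p - p) < 1)) :
    ∃ (u : Fin 3 → K) (κ : K) (j : Fin 3 → FinitePlace K → ℕ), Dat t p u κ j := by
  classical
  have hodd : Odd p := hp.odd_of_ne_two (by omega)
  have hFi := fermat_cyc t hF
  have hS : ∀ i, Sm t i ≠ 0 := fun i => add_ne_zero_of_fermat hodd (ht i) (hFi i)
  have hloc : ∀ i (v : FinitePlace K), ∃ j : ℕ, Lc v p (t (i + 1)) (t (i + 2)) (t i) j := by
    intro i v
    refine lc_exists hK hp h5 (ht _) (ht _) (hFi i) v fun h1 => ?_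
    rw [mx_cyc] at h1
    exact (hbad v i h1).1
  choose j hj using hloc
  have hmx0 : ∀ v : FinitePlace K, 0 < mx v (t 0) (t 1) (t 2) := fun v =>
    (FinitePlace.pos_iff.mpr (ht 0)).trans_le (le_mx1 v _ _ _)
  have hN : ∀ v : FinitePlace K, (0 : ℝ) < nrm v := fun v => by
    have := one_lt_nrm' v
    linarith
  have hrel : ∀ i v, v (Sm t i) * ((nrm v : ℝ) ^ j i v) ^ p = mx v (t 0) (t 1) (t 2) := by
    intro i v
    have h1 := (hj i v).1
    rw [mx_cyc] at h1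
    exact h1
  have hbig : ∀ i v, j i v ≠ 0 → v (t i) * (nrm v : ℝ) ^ j i v = mx v (t 0) (t 1) (t 2) ∧
      v (t (i + 1)) = mx v (t 0) (t 1) (t 2) ∧ v (t (i + 2)) = mx v (t 0) (t 1) (t 2) ∧
      v (Sm t i) < mx v (t 0) (t 1) (t 2) := by
    intro i v h1
    have h2 := (hj i v).2.resolve_left h1
    rw [mx_cyc] at h2
    exact h2
  have hsmall : ∀ i v, j i v ≠ 0 → v (t i) < mx v (t 0) (t 1) (t 2) := by
    intro i v h1
    have h2 := (hbig i v h1).1
    have h3 : (1 : ℝ) < (nrm v : ℝ) ^ j i v := one_lt_pow₀ (one_lt_nrm' v) h1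
    have h4 : 0 < v (t i) := FinitePlace.pos_iff.mpr (ht i)
    rw [← h2]
    nlinarith
  have honly : ∀ v i k, i ≠ k → j i v ≠ 0 → j k v = 0 := by
    intro v i k hik h1
    by_contra h2
    have h3 := hsmall i v h1
    have h4 := hbig k v h2
    have h5 : i = k + 1 ∨ i = k + 2 := by
      clear * - hik
      revert i k
      decide
    rcases h5 with rfl | rfl
    · exact absurd h4.2.1 h3.ne
    · exact absurd h4.2.2.1 h3.ne
  -- the roots
  have hτn : ∀ x, ‖τ x‖ = ‖σ x‖ := by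
    intro x
    rw [hτ, Complex.norm_conj]
  have hroot : ∀ i, ∃ u : K, u ≠ 0 ∧ Sm t i = Sm t 0 * u ^ p := by
    intro i
    have hx : Sm t i / Sm t 0 ≠ 0 := div_ne_zero (hS i) (hS 0)
    obtain ⟨ε, y, hy, e1⟩ := exists_root hp hh hx (by
      intro v
      refine ⟨(j 0 v : ℤ) - j i v, ?_⟩
      have hN1 := hN v
      have h1 := hrel i v
      have h2 := hrel 0 v
      have h3 : 0 < v (Sm t 0) := FinitePlace.pos_iff.mpr (hS 0)
      rw [map_div₀, div_eq_iff h3.ne']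
      have h4 : (nrm v : ℝ) ^ ((p : ℤ) * ((j 0 v : ℤ) - j i v)) =
          ((nrm v : ℝ) ^ j 0 v) ^ p / ((nrm v : ℝ) ^ j i v) ^ p := by
        rw [mul_sub, zpow_sub₀ hN1.ne', mul_comm (p : ℤ), mul_comm (p : ℤ), zpow_mul, zpow_mul]
        simp only [zpow_natCast]
      rw [h4, div_mul_eq_mul_div, eq_div_iff (by positivity), h1, ← h2]
      ring)
    obtain ⟨e, he, e2⟩ := unit_root hK hp h5 hE.mem hE.norm hτn ε
    refine ⟨e * y, mul_ne_zero he hy, ?_⟩
    rw [e2, ← mul_pow] at e1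
    rw [← e1]
    have := hS 0
    field_simp
  choose u hu0 hu using hroot
  have heq : ∀ v i k, v (u i) * (nrm v : ℝ) ^ j i v = v (u k) * (nrm v : ℝ) ^ j k v := by
    intro v i k
    have hN1 := hN v
    have hv0 : 0 < v (Sm t 0) := FinitePlace.pos_iff.mpr (hS 0)
    have h1 : ∀ i, v (Sm t 0) * (v (u i) * (nrm v : ℝ) ^ j i v) ^ p =
        mx v (t 0) (t 1) (t 2) := by
      intro i
      rw [← hrel i v, hu i, map_mul, map_pow, mul_pow]
      ring
    have h2 : (v (u i) * (nrm v : ℝ) ^ j i v) ^ p = (v (u k) * (nrm v : ℝ) ^ j k v) ^ p := by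
      apply mul_left_cancel₀ hv0.ne'
      rw [h1, h1]
    have h3 := apply_nonneg v (u i)
    have h4 := apply_nonneg v (u k)
    exact (pow_left_inj₀ (by positivity) (by positivity) hp.ne_zero).1 h2
  refine ⟨u, Sm t 0, j, hS 0, hu0, hu, hj, honly, heq, ?_⟩
  intro v i h1
  obtain ⟨h2, h3, h4, h5'⟩ := hbig i v h1
  obtain ⟨h6, h7⟩ := hbad v i h5'
  refine ⟨h6, ?_⟩
  have hw : ∃ w : K, v (w ^ p - p) < 1 := by
    have e1 : t (i + 1) + t (i + 2) = Sm t 0 * u i ^ p := by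
      rw [← hu i]
      rfl
    have e2 : t (i + 2) + t i = Sm t 0 * u (i + 1) ^ p := by
      rw [← hu (i + 1)]
      unfold Sm
      rw [f11, f12]
    exact pres v hodd (hFi i) e1 e2 (hS 0) (hu0 _) (hu0 _) (hmx0 v) h3 (hsmall i v h1) h5'
  have h8 : ¬ p ∣ nrm v - 1 := fun h9 => h7 ⟨h9, hw⟩
  exact (Nat.Prime.coprime_iff_not_dvd hp).2 h8

section

variable {t : Fin 3 → K} {p : ℕ} {u : Fin 3 → K} {κ : K} {j : Fin 3 → FinitePlace K → ℕ}
  (hD : Dat t p u κ j) (ht : ∀ i, t i ≠ 0)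

include hD ht

lemma Dat.mx0 (v : FinitePlace K) : 0 < mx v (t 0) (t 1) (t 2) :=
  (FinitePlace.pos_iff.mpr (ht 0)).trans_le (le_mx1 v _ _ _)

lemma Dat.small (i : Fin 3) (v : FinitePlace K) (h : j i v ≠ 0) :
    v (t i) * (nrm v : ℝ) ^ j i v = mx v (t 0) (t 1) (t 2) := by
  have h2 := (hD.loc i v).2.resolve_left h
  rw [mx_cyc] at h2
  exact h2.1

lemma Dat.rel (i : Fin 3) (v : FinitePlace K) :
    v κ * (v (u i) * (nrm v : ℝ) ^ j i v) ^ p = mx v (t 0) (t 1) (t 2) := by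
  have h1 := (hD.loc i v).1
  rw [mx_cyc] at h1
  have h2 : v (t (i + 1) + t (i + 2)) = v κ * v (u i) ^ p := by
    have h3 := hD.S i
    unfold Sm at h3
    rw [h3, map_mul, map_pow]
  rw [h2] at h1
  rw [← h1, mul_pow]
  ring

/-- the sum of two roots, at a place dividing the third -/
lemma Dat.pairs (hp : p.Prime) (hodd : Odd p) (i : Fin 3) (v : FinitePlace K) (h : j i v ≠ 0) :
    v (u (i + 1) + u (i + 2)) ≤ v (u i) ∧
      (v (2 : K) < 1 → v (u (i + 1) + u (i + 2)) < v (u i)) := by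
  have hN := one_lt_nrm' v
  have hNj : (1 : ℝ) < (nrm v : ℝ) ^ j i v := one_lt_pow₀ hN h
  have hm := hD.mx0 ht v
  set m := mx v (t 0) (t 1) (t 2) with hmdef
  obtain ⟨hv1, hco⟩ := hD.one v i h
  have j1 := hD.only v i (i + 1) (n1 i) h
  have j2 := hD.only v i (i + 2) (n2 i) h
  have e1 := hD.eq v i (i + 1)
  have e2 := hD.eq v i (i + 2)
  rw [j1, pow_zero, mul_one] at e1
  rw [j2, pow_zero, mul_one] at e2
  have hyz : v (u (i + 1)) = v (u (i + 2)) := by rw [← e1, ← e2]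
  have hr2 := hD.rel ht (i + 2) v
  rw [j2, pow_zero, mul_one] at hr2
  have hsum : κ * u (i + 1) ^ p + κ * u (i + 2) ^ p = Sm t i + 2 * t i := by
    rw [← hD.S, ← hD.S]
    unfold Sm
    rw [f11, f12, f21, f22]
    ring
  -- the sizes
  have hti := hD.small ht i v h
  have hvSi : v (Sm t i) * ((nrm v : ℝ) ^ j i v) ^ p = m := by
    have h1 := (hD.loc i v).1
    rw [mx_cyc] at h1
    exact h1
  have hSlt : v (Sm t i) * (nrm v : ℝ) ^ j i v < m := by
    have h1 : (nrm v : ℝ) ^ j i v < ((nrm v : ℝ) ^ j i v) ^ p := by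
      calc (nrm v : ℝ) ^ j i v = ((nrm v : ℝ) ^ j i v) ^ 1 := (pow_one _).symm
        _ < _ := pow_lt_pow_right₀ hNj hp.one_lt
    have h2 : 0 < v (Sm t i) := by
      by_contra h3
      have h4 : v (Sm t i) = 0 := le_antisymm (not_lt.1 h3) (apply_nonneg _ _)
      rw [h4, zero_mul] at hvSi
      exact hm.ne hvSi
    calc _ < v (Sm t i) * ((nrm v : ℝ) ^ j i v) ^ p := by gcongr
      _ = m := hvSi
  have h2t : v (2 * t i) * (nrm v : ℝ) ^ j i v = v (2 : K) * m := by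
    rw [map_mul, mul_assoc, hti]
  have hle : v (Sm t i + 2 * t i) * (nrm v : ℝ) ^ j i v ≤ m := by
    rw [← le_div_iff₀ (by positivity)]
    apply v_add_le
    · rw [le_div_iff₀ (by positivity)]
      exact hSlt.le
    · rw [le_div_iff₀ (by positivity), h2t]
      have : v (2 : K) ≤ 1 := by exact_mod_cast natCast_le_one v 2
      calc v (2 : K) * m ≤ 1 * m := by gcongr
        _ = m := one_mul _
  have hlt : v (2 : K) < 1 → v (Sm t i + 2 * t i) * (nrm v : ℝ) ^ j i v < m := by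
    intro h21
    rw [← lt_div_iff₀ (by positivity)]
    apply v_add_lt
    · rw [lt_div_iff₀ (by positivity)]
      exact hSlt
    · rw [lt_div_iff₀ (by positivity), h2t]
      calc v (2 : K) * m < 1 * m := by gcongr
        _ = m := one_mul _
  have hSS : v (Sm t i + 2 * t i) < m := by
    have h1 := apply_nonneg v (Sm t i + 2 * t i)
    rcases h1.lt_or_eq with h2 | h2
    · calc v (Sm t i + 2 * t i) = v (Sm t i + 2 * t i) * 1 := (mul_one _).symm
        _ < v (Sm t i + 2 * t i) * (nrm v : ℝ) ^ j i v := by gcongr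
        _ ≤ m := hle
    · rw [← h2]
      exact hm
  have key := pairS v hp hodd hv1 hco hD.κ0 (hD.u0 (i + 2)) hyz hsum (by rw [hr2]; exact hSS)
  rw [hr2] at key
  have hui : 0 < v (u i) := FinitePlace.pos_iff.mpr (hD.u0 i)
  have huz : 0 < v (u (i + 2)) := FinitePlace.pos_iff.mpr (hD.u0 _)
  have hpos : 0 < m * (nrm v : ℝ) ^ j i v := by positivity
  constructor
  · have h1 : v (u (i + 1) + u (i + 2)) * (m * (nrm v : ℝ) ^ j i v) ≤
        v (u i) * (m * (nrm v : ℝ) ^ j i v) := by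
      calc _ = (v (u (i + 1) + u (i + 2)) * m) * (nrm v : ℝ) ^ j i v := by ring
        _ = v (u (i + 2)) * (v (Sm t i + 2 * t i) * (nrm v : ℝ) ^ j i v) := by rw [key]; ring
        _ ≤ v (u (i + 2)) * m := by gcongr
        _ = (v (u i) * (nrm v : ℝ) ^ j i v) * m := by rw [e2]
        _ = _ := by ring
    exact le_of_mul_le_mul_right h1 hpos
  · intro h21
    have h0 := hlt h21
    have h1 : v (u (i + 1) + u (i + 2)) * (m * (nrm v : ℝ) ^ j i v) <
        v (u i) * (m * (nrm v : ℝ) ^ j i v) := by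
      calc _ = (v (u (i + 1) + u (i + 2)) * m) * (nrm v : ℝ) ^ j i v := by ring
        _ = v (u (i + 2)) * (v (Sm t i + 2 * t i) * (nrm v : ℝ) ^ j i v) := by rw [key]; ring
        _ < v (u (i + 2)) * m := by gcongr
        _ = (v (u i) * (nrm v : ℝ) ^ j i v) * m := by rw [e2]
        _ = _ := by ring
    exact lt_of_mul_lt_mul_right h1 hpos.le

end

end Pool.Agent.H577.CN
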