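import Pool.Agent.H577.CN.Delta

set_option autoImplicit false
set_option linter.unusedSectionVars false

/-! # Imaginary quadratic fields with class number prime to the exponent -/

namespace Pool.Agent.H577.CN

open NumberField IsDedekindDomain Pool.Agent.W7.FH Pool.Agent.H577.UQ Pool.Agent.H577.SQ
  ComplexConjugate Height

variable {K : Type} [Field K] [NumberField K]

section

variable {t : Fin 3 → K} {p : ℕ} {u : Fin 3 → K} {κ : K} {j : Fin 3 → FinitePlace K → ℕ}
  (hD : Dat t p u κ j) (ht : ∀ i, t i ≠ 0)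

include hD ht

/-- if the sum of the roots is zero, the solution is trivial -/
theorem Dat.trivial (hK : Module.finrank ℚ K = 2) (hp : p.Prime) (h5 : 5 ≤ p)
    (hF : (t 0) ^ p + (t 1) ^ p + (t 2) ^ p = 0) (hδ : u 0 + u 1 + u 2 = 0) :
    t 0 + t 1 + t 2 = 0 ∧ (t 0) ^ 2 + t 0 * t 1 + (t 1) ^ 2 = 0 := by
  have hodd : Odd p := hp.odd_of_ne_two (by omega)
  have h3 : p % 3 ≠ 0 := by
    intro h0
    have := (Nat.prime_dvd_prime_iff_eq Nat.prime_three hp).1 (Nat.dvd_of_mod_eq_zero h0)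
    omega
  obtain ⟨v, hv2⟩ := exists_place hK Nat.prime_two
  have h2 : v (2 : K) < 1 := by exact_mod_cast hv2
  have hj : ∀ i, j i v = 0 := by
    intro i
    by_contra h1
    have h3 := (hD.pairs ht hp hodd i v h1).2 h2
    have h4 := sum_cyc u i
    rw [hδ] at h4
    have h5 : u (i + 1) + u (i + 2) = -u i := by linear_combination -h4
    rw [h5, map_neg_eq_map] at h3
    exact lt_irrefl _ h3
  have hu : ∀ i, v (u i) = v (u 0) := by
    intro i
    have h1 := hD.eq v i 0
    rwa [hj, hj, pow_zero, mul_one, mul_one] at h1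
  have hu0 := hD.u0 0
  have hvu0 : 0 < v (u 0) := FinitePlace.pos_iff.mpr hu0
  set x : K := u 1 / u 0 with hx
  have hx1 : v x = 1 := by rw [hx, map_div₀, hu 1, div_self hvu0.ne']
  have hx' : -1 - x = u 2 / u 0 := by
    rw [hx]
    field_simp
    linear_combination -hδ
  have hx1' : v (-1 - x) = 1 := by rw [hx', map_div₀, hu 2, div_self hvu0.ne']
  have e1 : u 1 = x * u 0 := by
    rw [hx]
    field_simp
  have e2 : u 2 = (-1 - x) * u 0 := by
    rw [hx']
    field_simp
  have hsum : 2 * (t 0 + t 1 + t 2) = κ * u 0 ^ p * P x p := by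
    rw [← sum_Sm, hD.S, hD.S, hD.S, e1, e2]
    unfold P
    rw [mul_pow, mul_pow]
    ring
  have eS0 : t 1 + t 2 = κ * u 0 ^ p := hD.S 0
  have eS1 : t 2 + t 0 = κ * u 0 ^ p * x ^ p := by
    have h1 : t 2 + t 0 = κ * u 1 ^ p := hD.S 1
    rw [h1, e1, mul_pow]
    ring
  have eS2 : t 0 + t 1 = κ * u 0 ^ p * (-1 - x) ^ p := by
    have h1 : t 0 + t 1 = κ * u 2 ^ p := hD.S 2
    rw [h1, e2, mul_pow]
    ring
  have hg0 : κ * u 0 ^ p ≠ 0 := mul_ne_zero hD.κ0 (pow_ne_zero _ hu0)
  -- the residue field has four elements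
  rcases nrm_two hK h2 with hN | ⟨hN, hdisc⟩
  · exfalso
    have h6 : ∀ z : K, v z = 1 → v (z - 1) < 1 := by
      intro z hz
      have h7 := pow_unit v hz
      rwa [hN, show 2 - 1 = 1 by norm_num, pow_one] at h7
    have h7 := h6 x hx1
    have h8 := h6 (-1 - x) hx1'
    have h9 : v (3 : K) < 1 := by
      have e : (3 : K) = -((x - 1) + ((-1 - x) - 1)) := by ring
      rw [e, map_neg_eq_map]
      exact v_add_lt v h7 h8
    have h10 := odd_one v h2 (n := 3) (by decide)
    push_cast at h10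
    rw [h10] at h9
    exact lt_irrefl _ h9
  have h4 : ∀ z : K, v z = 1 → v (z ^ 3 - 1) < 1 := by
    intro z hz
    have h7 := pow_unit v hz
    rwa [hN, show 4 - 1 = 3 by norm_num] at h7
  have hη : v (x ^ 2 + x + 1) < 1 := by
    have h6 : v (x - 1) = 1 := by
      have h7 : v (x - 1) ≤ 1 := v_sub_le v hx1.le (by rw [map_one])
      rcases h7.lt_or_eq with h8 | h8
      · exfalso
        have h9 : v (-1 - x) < 1 := by
          have e : -1 - x = -((x - 1) + 2) := by ring
          rw [e, map_neg_eq_map]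
          exact v_add_lt v h8 h2
        rw [hx1'] at h9
        exact lt_irrefl _ h9
      · exact h8
    have h7 := h4 x hx1
    have e : x ^ 3 - 1 = (x - 1) * (x ^ 2 + x + 1) := by ring
    rwa [e, map_mul, h6, one_mul] at h7
  by_cases hη0 : x ^ 2 + x + 1 = 0
  · -- the trivial solutions
    have hx3 : x ^ 3 = 1 := by linear_combination (x - 1) * hη0
    have hxx : -1 - x = x ^ 2 := by linear_combination -hη0
    obtain ⟨l, hl⟩ : ∃ l, l = p / 3 := ⟨_, rfl⟩
    have hkey : 1 + x ^ p + (x ^ p) ^ 2 = 0 := by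
      rcases (show p = 3 * l + 1 ∨ p = 3 * l + 2 by omega) with h6 | h6
      · have e : x ^ p = x := by rw [h6, pow_add, pow_mul, hx3, one_pow, pow_one, one_mul]
        rw [e]
        linear_combination hη0
      · have e : x ^ p = x ^ 2 := by rw [h6, pow_add, pow_mul, hx3, one_pow, one_mul]
        rw [e]
        linear_combination x * hx3 + hη0
    have hP0 : P x p = 0 := by
      unfold P
      rw [hxx, ← pow_mul, mul_comm 2 p, pow_mul]
      exact hkey
    rw [hP0, mul_zero] at hsum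
    have hs0 : t 0 + t 1 + t 2 = 0 := by
      rcases mul_eq_zero.1 hsum with h6 | h6
      · exact absurd h6 two_ne_zero
      · exact h6
    refine ⟨hs0, ?_⟩
    have e0 : t 0 = -(κ * u 0 ^ p) := by linear_combination hs0 - eS0
    have e1' : t 1 = -(κ * u 0 ^ p * x ^ p) := by linear_combination hs0 - eS1
    rw [e0, e1']
    linear_combination (κ * u 0 ^ p) ^ 2 * hkey
  · exfalso
    have hA : At2 v x := ⟨h2, hdisc, hη0, hη, hx1.le⟩
    set g := κ * u 0 ^ p with hg
    refine no_sol hA h4 hp h5 (s := (t 0 + t 1 + t 2) / g) ?_ ?_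
    · rw [← mul_div_assoc, hsum]
      field_simp
    · have a0 : (t 0 + t 1 + t 2) / g - 1 = t 0 / g := by
        field_simp
        linear_combination eS0
      have a1 : (t 0 + t 1 + t 2) / g - x ^ p = t 1 / g := by
        field_simp
        linear_combination eS1
      have a2 : (t 0 + t 1 + t 2) / g - (-1 - x) ^ p = t 2 / g := by
        field_simp
        linear_combination eS2
      rw [a0, a1, a2, div_pow, div_pow, div_pow, ← add_div, ← add_div, hF, zero_div]

end

theorem first (hK : Module.finrank ℚ K = 2) {σ τ : K →ₐ[ℚ] ℂ} {s : K ≃ₐ[ℚ] K}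
    (hE : Emb K σ τ s) (hτ : ∀ x, τ x = conj (σ x)) {p : ℕ} (hp : p.Prime) (h7 : 7 ≤ p)
    (hh : ¬ p ∣ classNumber K) (t : Fin 3 → K) (ht : ∀ i, t i ≠ 0)
    (hF : (t 0) ^ p + (t 1) ^ p + (t 2) ^ p = 0)
    (hbad : ∀ (v : FinitePlace K) i, v (Sm t i) < mx v (t 0) (t 1) (t 2) →
      v (p : K) = 1 ∧ ¬ (p ∣ nrm v - 1 ∧ ∃ w : K, v (w ^ p - p) < 1)) :
    t 0 + t 1 + t 2 = 0 ∧ (t 0) ^ 2 + t 0 * t 1 + (t 1) ^ 2 = 0 := by
  obtain ⟨u, κ, j, hD⟩ := dat_exists hK hE hτ hp (by omega) hh t ht hF hbad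
  rcases hD.delta ht hK hE hτ hp h7 hF with h | h
  · exact hD.trivial ht hK hp (by omega) hF h
  · exact unit_case hK hp.two_le (hp.odd_of_ne_two (by omega)) (ht 0) (ht 1) (ht 2) hF h

/-- a place of norm `1` modulo `p` has norm at least `2 p + 1` -/
lemma norm_ge (hK : Module.finrank ℚ K = 2) {p : ℕ} (hp : p.Prime) (h5 : 5 ≤ p)
    (v : FinitePlace K) (hv : p ∣ nrm v - 1) : 2 * p + 1 ≤ nrm v := by
  have hN := one_lt_nrm v
  obtain ⟨k, hk⟩ := hv
  rcases (show k = 0 ∨ k = 1 ∨ 2 ≤ k by omega) with rfl | rfl | h2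
  · omega
  · exfalso
    have hodd : Odd p := hp.odd_of_ne_two (by omega)
    obtain ⟨l, hl⟩ := hodd
    have h3 : 2 ∣ nrm v := ⟨l + 1, by omega⟩
    have h4 := prime_dvd_nrm v Nat.prime_two h3
    have h5' : v (2 : K) < 1 := by exact_mod_cast h4
    rcases nrm_two hK h5' with h6 | ⟨h6, -⟩ <;> omega
  · have h3 : p * 2 ≤ p * k := Nat.mul_le_mul_left p h2
    omega

/-- the height of a solution with a special place -/
theorem height_of_place (hK : Module.finrank ℚ K = 2) {p : ℕ} (hp : p.Prime) (h5 : 5 ≤ p)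
    {a b c : K} (ha : a ≠ 0) (hb : b ≠ 0) (hc : c ≠ 0) (h : a ^ p + b ^ p + c ^ p = 0)
    (v : FinitePlace K) (hlt : v (a + b) < mx v a b c)
    (hv : v (p : K) < 1 ∨ p ∣ nrm v - 1) :
    (p : ℝ) ^ p ≤ 4 * (p : ℝ) ^ 2 * mulHeight ![a, b, c] ∧
      ((v (p : K) < 1 → v a = v b ∧ v b = v c) →
        v (p : K) = 1 ∧ (2 * (p : ℝ) + 1) ^ p ≤ 4 * mulHeight ![a, b, c]) := by
  have hodd : Odd p := hp.odd_of_ne_two (by omega)
  have hm : ∀ q : ℕ, q.Prime → q ∣ p → Module.finrank ℚ K + 1 < q := by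
    intro q hq hqp
    rw [hK, (Nat.prime_dvd_prime_iff_eq hq hp).1 hqp]
    omega
  obtain ⟨h1, h2, h3, h4, h5'⟩ := core v (by omega) hm hb h hlt
  have hcb : c / b ≠ 0 := div_ne_zero hc hb
  have hvc0 : 0 < v (c / b) := FinitePlace.pos_iff.mpr hcb
  have hvb : 0 < v b := FinitePlace.pos_iff.mpr hb
  have hab : (a + b) / b ≠ 0 := div_ne_zero (add_ne_zero_of_fermat hodd hc h) hb
  have hvu0 : 0 < v ((a + b) / b) := FinitePlace.pos_iff.mpr hab
  have hpR : (5 : ℝ) ≤ p := by exact_mod_cast h5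
  have hvab : v (a + b) = v ((a + b) / b) * v b := by
    rw [map_div₀]
    field_simp
  rcases (natCast_le_one v p).lt_or_eq with hvp | hvp
  · constructor
    · have h8 := nrm_ge v hp hvp
      have h10 : v (c / b) ≤ ((p : ℕ) : ℝ)⁻¹ := (le_inv_nrm v h3).trans (by
        apply inv_anti₀ (by positivity)
        exact_mod_cast h8)
      have hge := prime_ge v (p := p) hp.pos
      rw [hK] at hge
      have h11 : v ((a + b) / b) ≤ (p : ℝ) ^ 2 * v (c / b) ^ p := by
        rw [h5', ← mul_assoc]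
        have h12 : 1 ≤ (p : ℝ) ^ 2 * v (p : K) := by
          have := mul_le_mul_of_nonneg_left hge (show (0 : ℝ) ≤ (p : ℝ) ^ 2 by positivity)
          rwa [mul_inv_cancel₀ (by positivity)] at this
        exact le_mul_of_one_le_left hvu0.le h12
      have h12 : v ((a + b) / b) ≤ (p : ℝ) ^ 2 * ((p : ℝ) ^ p)⁻¹ := by
        refine h11.trans ?_
        rw [← inv_pow]
        gcongr
      have h13 : (p : ℝ) ^ p / (p : ℝ) ^ 2 * v (a + b) ≤ max (max (v a) (v b)) (v c) := by
        change _ ≤ mx v a b c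
        rw [h2, hvab, ← mul_assoc]
        have h15 : (p : ℝ) ^ p / (p : ℝ) ^ 2 * v ((a + b) / b) ≤ 1 := by
          calc (p : ℝ) ^ p / (p : ℝ) ^ 2 * v ((a + b) / b) ≤
                (p : ℝ) ^ p / (p : ℝ) ^ 2 * ((p : ℝ) ^ 2 * ((p : ℝ) ^ p)⁻¹) := by gcongr
            _ = 1 := by
              field_simp
        calc _ ≤ 1 * v b := mul_le_mul_of_nonneg_right h15 hvb.le
          _ = v b := one_mul _
      have h14 := height_ge ha hb hc (add_ne_zero_of_fermat hodd hc h) v (by positivity) h13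
      rw [hK, div_le_iff₀ (by positivity)] at h14
      norm_num at h14
      linarith
    · intro h6
      exfalso
      rw [map_div₀, div_lt_one hvb, (h6 hvp).2] at h3
      exact lt_irrefl _ h3
  · have hdvd : p ∣ nrm v - 1 := by
      rcases hv with h6 | h6
      · exact absurd hvp h6.ne
      · exact h6
    have hN := norm_ge hK hp h5 v hdvd
    have hNR : 2 * (p : ℝ) + 1 ≤ nrm v := by exact_mod_cast hN
    have h10 : v (c / b) ≤ (2 * (p : ℝ) + 1)⁻¹ := (le_inv_nrm v h3).trans (by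
      apply inv_anti₀ (by positivity)
      exact hNR)
    rw [hvp, one_mul] at h5'
    have h13 : (2 * (p : ℝ) + 1) ^ p * v (a + b) ≤ max (max (v a) (v b)) (v c) := by
      change _ ≤ mx v a b c
      rw [h2, hvab, ← mul_assoc, ← h5']
      have h15 : (2 * (p : ℝ) + 1) ^ p * v (c / b) ^ p ≤ 1 := by
        calc (2 * (p : ℝ) + 1) ^ p * v (c / b) ^ p ≤
              (2 * (p : ℝ) + 1) ^ p * ((2 * (p : ℝ) + 1)⁻¹) ^ p := by gcongr
          _ = 1 := by
            rw [← mul_pow, mul_inv_cancel₀ (by positivity), one_pow]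
      calc _ ≤ 1 * v b := mul_le_mul_of_nonneg_right h15 hvb.le
        _ = v b := one_mul _
    have h14 := height_ge ha hb hc (add_ne_zero_of_fermat hodd hc h) v (by positivity) h13
    rw [hK] at h14
    norm_num at h14
    refine ⟨?_, fun _ => ⟨hvp, h14⟩⟩
    have h16 : (p : ℝ) ^ p ≤ (2 * (p : ℝ) + 1) ^ p := by
      apply pow_le_pow_left₀ (by positivity)
      linarith
    have h17 : (0 : ℝ) < 4 * mulHeight ![a, b, c] := by
      refine lt_of_lt_of_le ?_ h14
      positivity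
    calc (p : ℝ) ^ p ≤ 4 * mulHeight ![a, b, c] := h16.trans h14
      _ ≤ (p : ℝ) ^ 2 * (4 * mulHeight ![a, b, c]) := by
          apply le_mul_of_one_le_left h17.le
          nlinarith
      _ = _ := by ring

end Pool.Agent.H577.CN
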