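import Pool.Agent.H577.CN.TwoFinal
import Pool.Agent.H577.SQ.Norms

set_option autoImplicit false
set_option linter.unusedSectionVars false

/-! # Local data of a solution -/

namespace Pool.Agent.H577.CN

open NumberField IsDedekindDomain Pool.Agent.W7.FH Pool.Agent.H577.UQ Pool.Agent.H577.SQ

variable {K : Type} [Field K] [NumberField K]

/-- the local exponent of a sum -/
def Lc (v : FinitePlace K) (p : ℕ) (a b c : K) (j : ℕ) : Prop :=
  v (a + b) * ((nrm v : ℝ) ^ j) ^ p = mx v a b c ∧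
    (j = 0 ∨ (v c * (nrm v : ℝ) ^ j = mx v a b c ∧ v a = mx v a b c ∧ v b = mx v a b c ∧
      v (a + b) < mx v a b c))

lemma lc_exists (hK : Module.finrank ℚ K = 2) {p : ℕ} (hp : p.Prime) (h5 : 5 ≤ p)
    {a b c : K} (hb : b ≠ 0) (hc : c ≠ 0) (h : a ^ p + b ^ p + c ^ p = 0) (v : FinitePlace K)
    (hv : v (a + b) < mx v a b c → v (p : K) = 1) : ∃ j : ℕ, Lc v p a b c j := by
  have hm : ∀ q : ℕ, q.Prime → q ∣ p → Module.finrank ℚ K + 1 < q := by
    intro q hq hqp
    rw [hK, (Nat.prime_dvd_prime_iff_eq hq hp).1 hqp]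
    omega
  by_cases hlt : v (a + b) < mx v a b c
  swap
  · refine ⟨0, ?_, Or.inl rfl⟩
    rw [pow_zero, one_pow, mul_one]
    refine le_antisymm ?_ (not_lt.1 hlt)
    exact (FinitePlace.add_le v a b).trans (max_le (le_mx1 v a b c) (le_mx2 v a b c))
  obtain ⟨h1, h2, h3, h4, h5'⟩ := core v (by omega) hm hb h hlt
  have hcb : c / b ≠ 0 := div_ne_zero hc hb
  have hvb : 0 < v b := FinitePlace.pos_iff.mpr hb
  rw [hv hlt, one_mul] at h5'
  obtain ⟨j, hj, hj1⟩ := value_eq v hcb h3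
  have hN := one_lt_nrm' v
  refine ⟨j, ?_, Or.inr ⟨?_, ?_, ?_, hlt⟩⟩
  · have h7 : v (a + b) = v ((a + b) / b) * v b := by
      rw [map_div₀]
      field_simp
    rw [h2, h7, ← h5']
    calc v (c / b) ^ p * v b * ((nrm v : ℝ) ^ j) ^ p = (v (c / b) * (nrm v : ℝ) ^ j) ^ p * v b := by
          rw [mul_pow]; ring
      _ = v b := by rw [hj1, one_pow, one_mul]
  · rw [h2]
    have h7 : v c = v (c / b) * v b := by
      rw [map_div₀]
      field_simp
    rw [h7]
    calc v (c / b) * v b * (nrm v : ℝ) ^ j = (v (c / b) * (nrm v : ℝ) ^ j) * v b := by ring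
      _ = v b := by rw [hj1, one_mul]
  · rw [h1, h2]
  · rw [h2]

/-- the exponent is a `p`-th power residue -/
lemma pres (v : FinitePlace K) {p : ℕ} (hodd : Odd p) {a b c κ x y : K}
    (hF : a ^ p + b ^ p + c ^ p = 0) (hS : a + b = κ * x ^ p) (hS1 : b + c = κ * y ^ p)
    (hκ : κ ≠ 0) (hx : x ≠ 0) (hy : y ≠ 0) {m : ℝ} (hm : 0 < m) (ha : v a = m)
    (hc : v c < m) (hab : v (a + b) < m) : ∃ w : K, v (w ^ p - p) < 1 := by
  have ha0 : a ≠ 0 := by
    rintro rfl
    rw [map_zero] at ha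
    exact hm.ne ha
  obtain ⟨q, hq⟩ : ∃ q, p = q + 1 := ⟨p - 1, by have := hodd.pos; omega⟩
  have hqeven : Even q := by
    rw [hq] at hodd
    by_contra h0
    rw [Nat.not_even_iff_odd] at h0
    exact (Nat.not_odd_iff_even.2 h0.add_one) hodd
  set β : K := -b / a with hβ
  have hβ1 : v (β - 1) < 1 := by
    have e : β - 1 = -(a + b) / a := by
      rw [hβ]
      field_simp
      ring
    rw [e, map_div₀, map_neg_eq_map, ha, div_lt_one hm]
    exact hab
  have hβv : v β = 1 := v_eq_one v (map_one v) hβ1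
  set G : K := ∑ k ∈ Finset.range p, β ^ k with hG
  have hGp : v (G - p) < 1 := by
    have e : G - p = ∑ k ∈ Finset.range p, (β ^ k - 1) := by
      rw [Finset.sum_sub_distrib, Finset.sum_const, Finset.card_range, nsmul_eq_mul, mul_one]
    rw [e]
    refine lt_of_le_of_lt (v_sum_le v (apply_nonneg v (β - 1)) _ _ fun k _ => ?_) hβ1
    exact pow_sub_one_le v hβv.le k
  have hGm : G * (β - 1) = β ^ p - 1 := geom_sum_mul β p
  set ρ : K := -(κ * y ^ p) / a with hρ
  have hρ1 : v (ρ - 1) < 1 := by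
    have e : ρ - 1 = -(c + (a + b)) / a := by
      rw [hρ, ← hS1]
      field_simp
      ring
    rw [e, map_div₀, map_neg_eq_map, ha, div_lt_one hm]
    exact v_add_lt v hc hab
  have hρv : v ρ = 1 := v_eq_one v (map_one v) hρ1
  have hρ0 : ρ ≠ 0 := by
    intro h0
    rw [h0, map_zero] at hρv
    exact zero_ne_one hρv
  have hρq : v (ρ ^ q - 1) < 1 := lt_of_le_of_lt (pow_sub_one_le v hρv.le q) hρ1
  refine ⟨-c / (κ * x * y ^ q), ?_⟩
  have hw : (-c / (κ * x * y ^ q)) ^ p = G / ρ ^ q := by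
    rw [eq_div_iff (pow_ne_zero _ hρ0), div_pow, hodd.neg_pow]
    have e1 : ρ ^ q = κ ^ q * y ^ (p * q) / a ^ q := by
      rw [hρ, div_pow, hqeven.neg_pow, mul_pow, ← pow_mul]
    have e2 : β - 1 = -(κ * x ^ p) / a := by
      rw [hβ, ← hS]
      field_simp
      ring
    have e3 : β ^ p - 1 = c ^ p / a ^ p := by
      rw [hβ, div_pow, hodd.neg_pow]
      field_simp
      linear_combination -hF
    rw [e2, e3] at hGm
    have hxp : x ^ p ≠ 0 := pow_ne_zero _ hx
    have hyq : y ^ q ≠ 0 := pow_ne_zero _ hy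
    have hap : a ^ p ≠ 0 := pow_ne_zero _ ha0
    have haq : a ^ q ≠ 0 := pow_ne_zero _ ha0
    have hGv : G = -(c ^ p / a ^ p) * a / (κ * x ^ p) := by
      rw [eq_div_iff (mul_ne_zero hκ hxp)]
      have h8 : G * (κ * x ^ p) = -(G * (-(κ * x ^ p) / a)) * a := by
        field_simp
      rw [h8, hGm]
    rw [hGv, e1]
    have e4 : (κ * x * y ^ q) ^ p = κ ^ p * x ^ p * y ^ (p * q) := by
      rw [mul_pow, mul_pow, ← pow_mul, mul_comm q p]
    have e5 : κ ^ p = κ ^ q * κ := by rw [hq, pow_succ]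
    have e6 : a ^ p = a ^ q * a := by rw [hq, pow_succ]
    have hypq : y ^ (p * q) ≠ 0 := pow_ne_zero _ hy
    have hκq : κ ^ q ≠ 0 := pow_ne_zero _ hκ
    rw [e4, e5, e6]
    field_simp
  rw [hw]
  have e : G / ρ ^ q - p = ((G - p) - p * (ρ ^ q - 1)) / ρ ^ q := by
    have : ρ ^ q ≠ 0 := pow_ne_zero _ hρ0
    field_simp
    ring
  rw [e, map_div₀, map_pow, hρv, one_pow, div_one]
  apply v_sub_lt v hGp
  rw [map_mul]
  calc v (p : K) * v (ρ ^ q - 1) ≤ 1 * v (ρ ^ q - 1) := by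
        have := natCast_le_one v p
        have := apply_nonneg v (ρ ^ q - 1)
        gcongr
    _ < 1 := by rw [one_mul]; exact hρq

/-- the sum of the two other roots -/
lemma pairS (v : FinitePlace K) {p : ℕ} (hp : p.Prime) (hodd : Odd p) (hv : v (p : K) = 1)
    (hco : Nat.Coprime p (nrm v - 1)) {κ y z S : K} (hκ : κ ≠ 0) (hz : z ≠ 0) (hyz : v y = v z)
    (hsum : κ * y ^ p + κ * z ^ p = S) (h : v S < v κ * v z ^ p) :
    v (y + z) * (v κ * v z ^ p) = v z * v S := by
  have hvκ : 0 < v κ := FinitePlace.pos_iff.mpr hκ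
  have e : v S = v κ * v (y ^ p + z ^ p) := by
    rw [← hsum, ← mul_add, map_mul]
  have h1 := pair v hp hodd hv hco hz hyz (by
    rw [e] at h
    exact lt_of_mul_lt_mul_left h hvκ.le)
  rw [e]
  calc v (y + z) * (v κ * v z ^ p) = v κ * (v (y + z) * v z ^ p) := by ring
    _ = v κ * (v z * v (y ^ p + z ^ p)) := by rw [h1]
    _ = _ := by ring

/-- every prime number lies in a prime ideal -/
lemma exists_place (hK : Module.finrank ℚ K = 2) {l : ℕ} (hl : l.Prime) :
    ∃ v : FinitePlace K, v (l : K) < 1 := by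
  by_contra hcon
  push Not at hcon
  have h1 : ∀ v : FinitePlace K, v (l : K) = 1 := fun v =>
    le_antisymm (natCast_le_one v l) (hcon v)
  have hl0 : (l : K) ≠ 0 := by exact_mod_cast hl.ne_zero
  have h2 := abs_norm_eq_one hl0 h1
  have h3 := norm_int hK (l : ℤ)
  have h4 : (((l : ℤ) : K)) = (l : K) := by push_cast; rfl
  rw [h4, h2] at h3
  have h5 : (1 : ℝ) < (l : ℝ) ^ 2 := by
    have : (2 : ℝ) ≤ l := by exact_mod_cast hl.two_le
    nlinarith
  push_cast at h3
  linarith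

/-- the places above two in quadratic fields -/
lemma nrm_two (hK : Module.finrank ℚ K = 2) {v : FinitePlace K} (h2 : v (2 : K) < 1) :
    nrm v = 2 ∨ nrm v = 4 ∧ ∀ z : K, v z < 1 → v z ≤ v (2 : K) := by
  have h1 := prime_ge v (p := 2) (by norm_num)
  rw [hK] at h1
  push_cast at h1
  have h3 := le_inv_nrm v h2
  have hN := one_lt_nrm v
  have hN' := one_lt_nrm' v
  have h4 : (nrm v : ℝ) ≤ 4 := by
    have h5 : ((4 : ℝ))⁻¹ ≤ ((nrm v : ℕ) : ℝ)⁻¹ := by
      refine le_trans ?_ (h1.trans h3)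
      norm_num
    exact (inv_le_inv₀ (by norm_num) (by linarith)).1 h5
  have h5 : nrm v ≤ 4 := by exact_mod_cast h4
  have h6 : nrm v ≠ 3 := by
    intro h7
    have h8 := prime_dvd_nrm v Nat.prime_three (by rw [h7])
    have h9 : v (1 : K) < 1 := by
      have e : (1 : K) = ((3 : ℕ) : K) - 2 := by push_cast; ring
      rw [e]
      exact v_sub_lt v h8 h2
    rw [map_one] at h9
    exact lt_irrefl _ h9
  rcases (show nrm v = 2 ∨ nrm v = 4 by omega) with h7 | h7
  · exact Or.inl h7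
  · refine Or.inr ⟨h7, fun z hz => ?_⟩
    have h8 := le_inv_nrm v hz
    rw [h7] at h8
    refine h8.trans (le_trans ?_ h1)
    push_cast
    norm_num

end Pool.Agent.H577.CN
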