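import Pool.Agent.H577.CN.Two

set_option autoImplicit false
set_option linter.unusedSectionVars false

/-! # The power sums of `1, x, -1 - x` at a place above two -/

namespace Pool.Agent.H577.CN

open NumberField IsDedekindDomain Pool.Agent.W7.FH Pool.Agent.H577.UQ

variable {K : Type} [Field K] [NumberField K]

/-- the power sums -/
def P (x : K) (n : ℕ) : K := 1 + x ^ n + (-1 - x) ^ n

/-- the setting -/
structure At2 (v : FinitePlace K) (x : K) : Prop where
  two : v (2 : K) < 1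
  disc : ∀ z : K, v z < 1 → v z ≤ v (2 : K)
  ne : x ^ 2 + x + 1 ≠ 0
  small : v (x ^ 2 + x + 1) < 1
  le : v x ≤ 1

section

variable {v : FinitePlace K} {x : K} (h : At2 v x)

include h

lemma At2.two_pos : 0 < v (2 : K) := FinitePlace.pos_iff.mpr two_ne_zero

lemma At2.eta_pos : 0 < v (x ^ 2 + x + 1) := FinitePlace.pos_iff.mpr h.ne

lemma At2.eta_le : v (x ^ 2 + x + 1) ≤ v (2 : K) := h.disc _ h.small

lemma At2.le' : v (-1 - x) ≤ 1 := v_sub_le v (by rw [map_neg_eq_map, map_one]) h.le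

lemma At2.three : v (3 : K) = 1 := by
  have := odd_one v h.two (n := 3) (by decide)
  simpa using this

lemma At2.swap : At2 v (-1 - x) where
  two := h.two
  disc := h.disc
  ne := by
    have : (-1 - x) ^ 2 + (-1 - x) + 1 = x ^ 2 + x + 1 := by ring
    rw [this]
    exact h.ne
  small := by
    have : (-1 - x) ^ 2 + (-1 - x) + 1 = x ^ 2 + x + 1 := by ring
    rw [this]
    exact h.small
  le := h.le'

omit h in
lemma eta_swap (x : K) : (-1 - x) ^ 2 + (-1 - x) + 1 = x ^ 2 + x + 1 := by ring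

lemma At2.one_sub_le : v (1 - x) ≤ 1 := v_sub_le v (by rw [map_one]) h.le

lemma At2.y_le : v (-((x ^ 2 + x + 1) * (1 - x))) ≤ v (x ^ 2 + x + 1) := by
  rw [map_neg_eq_map, map_mul]
  calc _ ≤ v (x ^ 2 + x + 1) * 1 := by
        have := h.eta_pos
        have := h.one_sub_le
        gcongr
    _ = _ := mul_one _

omit h in
lemma cube (x : K) : x ^ 3 = 1 + -((x ^ 2 + x + 1) * (1 - x)) := by ring

lemma At2.x_eq : v x = 1 := by
  have h1 : v (x ^ 3) = 1 := by
    refine v_eq_one v (y := 1) (map_one v) ?_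
    rw [cube, add_sub_cancel_left]
    exact lt_of_le_of_lt h.y_le h.small
  rw [map_pow] at h1
  exact (pow_eq_one_iff_of_nonneg (apply_nonneg _ _) (by norm_num)).1 h1

/-- cubes are near one -/
lemma At2.pow3 (l : ℕ) : v (x ^ (3 * l) - 1) ≤ v (x ^ 2 + x + 1) := by
  rw [pow_mul]
  refine (pow_sub_one_le v ?_ l).trans ?_
  · rw [map_pow]
    exact pow_le_one₀ (apply_nonneg _ _) h.le
  · rw [cube, add_sub_cancel_left]
    exact h.y_le

/-- multiples of three -/
lemma At2.P0 (l : ℕ) : v (P x (3 * l)) = 1 := by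
  refine v_eq_one v (y := 3) h.three ?_
  have e : P x (3 * l) - 3 = (x ^ (3 * l) - 1) + ((-1 - x) ^ (3 * l) - 1) := by
    unfold P
    ring
  rw [e]
  have h1 := h.pow3 l
  have h2 := h.swap.pow3 l
  rw [eta_swap] at h2
  exact lt_of_le_of_lt (v_add_le v h1 h2) h.small

/-- `P n` for `n` not divisible by three -/
lemma At2.Pne {n : ℕ} (hn : n % 3 ≠ 0) : v (P x n) ≤ v (x ^ 2 + x + 1) := by
  have h1 : ∀ (y : K) (l r : ℕ), v y ≤ 1 → v (y ^ (3 * l) - 1) ≤ v (x ^ 2 + x + 1) →
      v (y ^ (3 * l + r) - y ^ r) ≤ v (x ^ 2 + x + 1) := by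
    intro y l r hy hl
    have e : y ^ (3 * l + r) - y ^ r = y ^ r * (y ^ (3 * l) - 1) := by
      rw [pow_add]
      ring
    rw [e, map_mul, map_pow]
    calc _ ≤ 1 * v (x ^ 2 + x + 1) := by
          have := apply_nonneg v y
          gcongr
          exact pow_le_one₀ this hy
      _ = _ := one_mul _
  obtain ⟨l, hl⟩ : ∃ l, l = n / 3 := ⟨_, rfl⟩
  have hx := h.pow3 l
  have hx' := h.swap.pow3 l
  rw [eta_swap] at hx'
  have hcase : n = 3 * l + 1 ∨ n = 3 * l + 2 := by omega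
  rcases hcase with e | e
  · have e1 : P x n = (x ^ (3 * l + 1) - x ^ 1) + ((-1 - x) ^ (3 * l + 1) - (-1 - x) ^ 1) := by
      rw [e]
      unfold P
      ring
    rw [e1]
    exact v_add_le v (h1 x l 1 h.le hx) (h1 (-1 - x) l 1 h.le' hx')
  · have e1 : P x n = (x ^ (3 * l + 2) - x ^ 2) + ((-1 - x) ^ (3 * l + 2) - (-1 - x) ^ 2) +
        2 * (x ^ 2 + x + 1) := by
      rw [e]
      unfold P
      ring
    rw [e1]
    apply v_add_le
    · exact v_add_le v (h1 x l 2 h.le hx) (h1 (-1 - x) l 2 h.le' hx')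
    · rw [map_mul]
      calc _ ≤ 1 * v (x ^ 2 + x + 1) := by
            have := h.eta_pos
            have := h.two
            gcongr
        _ = _ := one_mul _

/-- doubling -/
lemma At2.double {n : ℕ} (hn : n % 3 ≠ 0) (k : ℕ) :
    v (P x (2 ^ k * n)) ≤ v (2 : K) ^ k * v (x ^ 2 + x + 1) ∧
    v (P x (2 ^ k * n) - 1 + (x * (-1 - x)) ^ (2 ^ k * n)) ≤
      v (2 : K) ^ k * v (x ^ 2 + x + 1) := by
  have h20 := h.two_pos
  have h21 := h.two
  have he0 := h.eta_pos
  have he := h.eta_le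
  induction k with
  | zero =>
    rw [pow_zero, pow_zero, one_mul, one_mul]
    have h1 := h.Pne hn
    refine ⟨h1, ?_⟩
    have e : P x n - 1 + (x * (-1 - x)) ^ n = P x n + ((x * (-1 - x)) ^ n - 1) := by ring
    rw [e]
    apply v_add_le v h1
    have h2 : v (x * (-1 - x)) ≤ 1 := by
      rw [map_mul]
      exact mul_le_one₀ h.le (apply_nonneg _ _) h.le'
    refine (pow_sub_one_le v h2 n).trans ?_
    have e2 : x * (-1 - x) - 1 = -(x ^ 2 + x + 1) := by ring
    rw [e2, map_neg_eq_map]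
  | succ k ih =>
    obtain ⟨h1, h2⟩ := ih
    set N := 2 ^ k * n with hN
    have hN2 : 2 ^ (k + 1) * n = 2 * N := by rw [hN, pow_succ]; ring
    rw [hN2]
    set c := v (2 : K) ^ k * v (x ^ 2 + x + 1) with hc
    have hc0 : 0 < c := by positivity
    have hc2 : c ≤ v (2 : K) := by
      have : v (2 : K) ^ k ≤ 1 := pow_le_one₀ h20.le h21.le
      calc c ≤ 1 * v (2 : K) := by rw [hc]; gcongr
        _ = _ := one_mul _
    have hgoal : v (2 : K) ^ (k + 1) * v (x ^ 2 + x + 1) = v (2 : K) * c := by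
      rw [hc, pow_succ]; ring
    rw [hgoal]
    set X := x ^ N with hX
    set Y := (-1 - x) ^ N with hY
    have hXY : (x * (-1 - x)) ^ N = X * Y := by rw [hX, hY, mul_pow]
    have e1 : x ^ (2 * N) = X ^ 2 := by rw [hX, mul_comm, pow_mul]
    have e2 : (-1 - x) ^ (2 * N) = Y ^ 2 := by rw [hY, mul_comm, pow_mul]
    have e3 : (x * (-1 - x)) ^ (2 * N) = (X * Y) ^ 2 := by rw [mul_comm 2 N, pow_mul, hXY]
    have hP : P x N = 1 + X + Y := rfl
    rw [hXY, hP] at h2
    rw [hP] at h1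
    have e4 : 1 + X + Y - 1 + X * Y = X + Y + X * Y := by ring
    rw [e4] at h2
    have hvX : v X ≤ 1 := by
      rw [hX, map_pow]
      exact pow_le_one₀ (apply_nonneg _ _) h.le
    have hvY : v Y ≤ 1 := by
      rw [hY, map_pow]
      exact pow_le_one₀ (apply_nonneg _ _) h.le'
    have hsq : ∀ z : K, v z ≤ c → v (z ^ 2) ≤ v (2 : K) * c := by
      intro z hz
      rw [map_pow, sq]
      have := apply_nonneg v z
      gcongr
      exact hz.trans hc2
    unfold P
    rw [e1, e2, e3]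
    constructor
    · have e5 : 1 + X ^ 2 + Y ^ 2 = (1 + X + Y) ^ 2 - 2 * (X + Y + X * Y) := by ring
      rw [e5]
      apply v_sub_le v (hsq _ h1)
      rw [map_mul]
      gcongr
    · have e5 : 1 + X ^ 2 + Y ^ 2 - 1 + (X * Y) ^ 2 =
          (X + Y + X * Y) ^ 2 - 2 * (X * Y * (1 + X + Y)) := by ring
      rw [e5]
      apply v_sub_le v (hsq _ h2)
      rw [map_mul, map_mul, map_mul]
      have := apply_nonneg v X
      have := apply_nonneg v Y
      calc v (2 : K) * (v X * v Y * v (1 + X + Y)) ≤ v (2 : K) * (1 * 1 * c) := by gcongr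
        _ = _ := by ring

/-- `P n` is divisible by `n` -/
lemma At2.P_le {n : ℕ} (hn0 : n ≠ 0) (hn : n % 3 ≠ 0) :
    v (P x n) ≤ v (n : K) * v (x ^ 2 + x + 1) := by
  obtain ⟨k, m, hm, rfl⟩ := Nat.exists_eq_two_pow_mul_odd hn0
  have hm3 : m % 3 ≠ 0 := by
    intro h0
    apply hn
    rw [Nat.mul_mod, h0]
    simp
  have h1 := (h.double hm3 k).1
  push_cast
  rw [map_mul, odd_one v h.two hm, mul_one, map_pow]
  exact h1

end

end Pool.Agent.H577.CN
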