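import Pool.Agent.H577.CN.Root

set_option autoImplicit false

/-! # Residue fields of finite places -/

namespace Pool.Agent.H577.CN

open NumberField IsDedekindDomain Pool.Agent.W7.FH Pool.Agent.H577.UQ

variable {K : Type} [Field K] [NumberField K]

lemma w_int_lt (w : FinitePlace K) (a : 𝓞 K) : w (a : K) < 1 ↔ a ∈ w.maximalIdeal.asIdeal := by
  rw [← w.norm_embedding_eq]
  exact FinitePlace.norm_lt_one_iff_mem (K := K) w.maximalIdeal a

lemma w_int_eq (w : FinitePlace K) (a : 𝓞 K) : w (a : K) = 1 ↔ a ∉ w.maximalIdeal.asIdeal := by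
  rw [← w.norm_embedding_eq]
  exact FinitePlace.norm_eq_one_iff_notMem (K := K) w.maximalIdeal a

lemma frac (w : FinitePlace K) {u : K} (hu : w u = 1) :
    ∃ a b : 𝓞 K, w (a : K) = 1 ∧ w (b : K) = 1 ∧ u * (b : K) = a := by
  obtain ⟨n, d, h⟩ := w.maximalIdeal.exists_primeCompl_mul_eq_or_mul_eq (K := K) u
  have hd : w ((d : 𝓞 K) : K) = 1 := (w_int_eq w _).2 d.2
  rcases h with h | h
  · refine ⟨n, d, ?_, hd, h⟩
    have h1 := congrArg w h
    rw [map_mul, hu, one_mul] at h1
    rw [← hd]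
    exact h1.symm
  · refine ⟨d, n, hd, ?_, h⟩
    have h1 := congrArg w h
    rw [map_mul, hu, one_mul] at h1
    rw [← hd]
    exact h1

lemma v_add_le (v : FinitePlace K) {x y : K} {C : ℝ} (hx : v x ≤ C) (hy : v y ≤ C) :
    v (x + y) ≤ C := (FinitePlace.add_le v x y).trans (max_le hx hy)

lemma v_add_lt (v : FinitePlace K) {x y : K} {C : ℝ} (hx : v x < C) (hy : v y < C) :
    v (x + y) < C := lt_of_le_of_lt (FinitePlace.add_le v x y) (max_lt hx hy)

lemma v_sub_le (v : FinitePlace K) {x y : K} {C : ℝ} (hx : v x ≤ C) (hy : v y ≤ C) :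
    v (x - y) ≤ C := by
  rw [sub_eq_add_neg]
  exact v_add_le v hx (by rwa [map_neg_eq_map])

lemma v_sub_lt (v : FinitePlace K) {x y : K} {C : ℝ} (hx : v x < C) (hy : v y < C) :
    v (x - y) < C := by
  rw [sub_eq_add_neg]
  exact v_add_lt v hx (by rwa [map_neg_eq_map])

/-- the larger one wins -/
lemma v_eq_of_sub_lt (v : FinitePlace K) {x y : K} (h : v (x - y) < v y) : v x = v y := by
  have h1 := add_eq_of_lt v h
  rwa [add_comm, sub_add_cancel] at h1

lemma v_eq_one (v : FinitePlace K) {x y : K} (hy : v y = 1) (h : v (x - y) < 1) : v x = 1 := by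
  rw [← hy] at h ⊢
  exact v_eq_of_sub_lt v h

lemma pow_int (w : FinitePlace K) (a : 𝓞 K) (ha : w (a : K) = 1) :
    w ((a : K) ^ (nrm w - 1) - 1) < 1 := by
  have hmax : w.maximalIdeal.asIdeal.IsMaximal := w.maximalIdeal.isMaximal
  let _ : Field (𝓞 K ⧸ w.maximalIdeal.asIdeal) := Ideal.Quotient.field _
  have hfin : Finite (𝓞 K ⧸ w.maximalIdeal.asIdeal) :=
    Ideal.finiteQuotientOfFreeOfNeBot _ w.maximalIdeal.ne_bot
  let _ : Fintype (𝓞 K ⧸ w.maximalIdeal.asIdeal) := Fintype.ofFinite _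
  have hcard : Fintype.card (𝓞 K ⧸ w.maximalIdeal.asIdeal) = nrm w := by
    rw [← Nat.card_eq_fintype_card]
    rfl
  have h1 : (Ideal.Quotient.mk w.maximalIdeal.asIdeal a) ≠ 0 := by
    rw [Ne, Ideal.Quotient.eq_zero_iff_mem]
    exact (w_int_eq w a).1 ha
  have h2 := FiniteField.pow_card_sub_one_eq_one _ h1
  rw [hcard, ← map_pow, ← map_one (Ideal.Quotient.mk w.maximalIdeal.asIdeal),
    Ideal.Quotient.eq] at h2
  have h3 := (w_int_lt w _).2 h2
  have e : (((a ^ (nrm w - 1) - 1 : 𝓞 K)) : K) = (a : K) ^ (nrm w - 1) - 1 := by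
    push_cast
    rfl
  rwa [e] at h3

/-- little Fermat -/
lemma pow_unit (w : FinitePlace K) {u : K} (hu : w u = 1) : w (u ^ (nrm w - 1) - 1) < 1 := by
  obtain ⟨a, b, ha, hb, h⟩ := frac w hu
  have hb0 : (b : K) ≠ 0 := by
    intro h0
    rw [h0, map_zero] at hb
    exact zero_ne_one hb
  have e : u = (a : K) / b := by
    rw [← h]
    field_simp
  have e2 : u ^ (nrm w - 1) - 1 = (((a : K) ^ (nrm w - 1) - 1) - ((b : K) ^ (nrm w - 1) - 1)) /
      (b : K) ^ (nrm w - 1) := by
    rw [e, div_pow]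
    field_simp
    ring
  rw [e2, map_div₀, map_pow, hb, one_pow, div_one]
  exact v_sub_lt w (pow_int w a ha) (pow_int w b hb)

/-- `x ≡ y` implies `x ^ k ≡ y ^ k` -/
lemma pow_sub_pow_le (v : FinitePlace K) {x y : K} (hx : v x ≤ 1) (hy : v y ≤ 1) (k : ℕ) :
    v (x ^ k - y ^ k) ≤ v (x - y) := by
  induction k with
  | zero => simp
  | succ k ih =>
    have e : x ^ (k + 1) - y ^ (k + 1) = (x ^ k - y ^ k) * x + y ^ k * (x - y) := by ring
    rw [e]
    apply v_add_le
    · rw [map_mul]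
      calc v (x ^ k - y ^ k) * v x ≤ v (x - y) * 1 := by gcongr
        _ = v (x - y) := mul_one _
    · rw [map_mul, map_pow]
      calc v y ^ k * v (x - y) ≤ 1 ^ k * v (x - y) := by gcongr
        _ = v (x - y) := by rw [one_pow, one_mul]

lemma pow_sub_one_le (v : FinitePlace K) {x : K} (hx : v x ≤ 1) (k : ℕ) :
    v (x ^ k - 1) ≤ v (x - 1) := by
  have h := pow_sub_pow_le v hx (y := 1) (by simp) k
  rwa [one_pow] at h

/-- the map `u ↦ u ^ p` on the residue field is injective for `p` prime to `N v - 1` -/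
lemma root (v : FinitePlace K) {p : ℕ} (hp : Nat.Coprime p (nrm v - 1)) {u : K} (hu : v u = 1)
    (h : v (u ^ p - 1) < 1) : v (u - 1) < 1 := by
  have hN := one_lt_nrm v
  have h1 := pow_unit v hu
  rcases Nat.lt_or_ge 1 (nrm v - 1) with hk | hk
  · obtain ⟨m, -, hm⟩ := Nat.exists_mul_mod_eq_one_of_coprime hp hk
    set q := p * m / (nrm v - 1) with hq
    have h2 : p * m = (nrm v - 1) * q + 1 := by
      have := Nat.div_add_mod (p * m) (nrm v - 1)
      rw [hm] at this
      exact this.symm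
    have h3 : v (u ^ (p * m) - 1) < 1 := by
      rw [pow_mul]
      refine lt_of_le_of_lt (pow_sub_one_le v ?_ m) h
      rw [map_pow, hu, one_pow]
    have h4 : v (u ^ ((nrm v - 1) * q) - 1) < 1 := by
      rw [pow_mul]
      refine lt_of_le_of_lt (pow_sub_one_le v ?_ q) h1
      rw [map_pow, hu, one_pow]
    have h5 : u ^ ((nrm v - 1) * q) * (u - 1) =
        (u ^ (p * m) - 1) - (u ^ ((nrm v - 1) * q) - 1) := by
      rw [h2, pow_succ]
      ring
    have h6 : v (u ^ ((nrm v - 1) * q) * (u - 1)) < 1 := by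
      rw [h5]
      exact v_sub_lt v h3 h4
    rwa [map_mul, map_pow, hu, one_pow, one_mul] at h6
  · have h2 : nrm v - 1 = 1 := by omega
    rwa [h2, pow_one] at h1

/-- sums of two `p`-th powers -/
lemma pair (v : FinitePlace K) {p : ℕ} (hp : p.Prime) (hodd : Odd p) (hv : v (p : K) = 1)
    (hco : Nat.Coprime p (nrm v - 1)) {y z : K} (hz : z ≠ 0) (hyz : v y = v z)
    (h : v (y ^ p + z ^ p) < v z ^ p) : v (y + z) * v z ^ p = v z * v (y ^ p + z ^ p) := by
  have hvz : 0 < v z := FinitePlace.pos_iff.mpr hz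
  set g : K := -y / z with hg
  have hvg : v g = 1 := by
    rw [hg, map_div₀, map_neg_eq_map, hyz, div_self hvz.ne']
  have e1 : g ^ p - 1 = -(y ^ p + z ^ p) / z ^ p := by
    rw [hg, div_pow, hodd.neg_pow]
    have : z ^ p ≠ 0 := pow_ne_zero _ hz
    field_simp
    ring
  have h1 : v (g ^ p - 1) = v (y ^ p + z ^ p) / v z ^ p := by
    rw [e1, map_div₀, map_neg_eq_map, map_pow]
  have h2 : v (g ^ p - 1) < 1 := by
    rw [h1, div_lt_one (by positivity)]
    exact h
  have h3 := root v hco hvg h2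
  have h4 := one_add_pow v hp h3 (by
    rw [hv]
    exact pow_lt_one₀ (apply_nonneg _ _) h3 (by have := hp.two_le; omega))
  rw [add_sub_cancel, hv, one_mul, h1] at h4
  have e2 : g - 1 = -(y + z) / z := by
    rw [hg]
    field_simp
    ring
  rw [e2, map_div₀, map_neg_eq_map] at h4
  rw [div_eq_div_iff (by positivity) hvz.ne'] at h4
  linarith

/-- the Frobenius map at the places above `p` -/
lemma frob (v : FinitePlace K) {p : ℕ} (hp : p.Prime) (hv : v (p : K) < 1) {a b c g : K}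
    (hg : g ≠ 0) (ha : v a ≤ v g) (hb : v b ≤ v g) (hc : v c ≤ v g) :
    v ((a + b + c) ^ p - (a ^ p + b ^ p + c ^ p)) < v g ^ p := by
  have hvg : 0 < v g := FinitePlace.pos_iff.mpr hg
  have key : ∀ x y : K, v x ≤ 1 → v y ≤ 1 → v ((x + y) ^ p - (x ^ p + y ^ p)) < 1 := by
    intro x y hx hy
    rw [add_pow_prime_eq hp, add_sub_cancel_left, map_mul, map_mul, map_mul]
    have h1 : v (∑ k ∈ Finset.Ioo 0 p,
        x ^ (k - 1) * y ^ (p - k - 1) * ((p.choose k / p : ℕ) : K)) ≤ 1 := by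
      apply sum_le_one
      intro k _
      rw [map_mul, map_mul, map_pow, map_pow]
      have h2 := natCast_le_one v (p.choose k / p)
      have h3 : v x ^ (k - 1) ≤ 1 := pow_le_one₀ (apply_nonneg _ _) hx
      have h4 : v y ^ (p - k - 1) ≤ 1 := pow_le_one₀ (apply_nonneg _ _) hy
      have h5 : v x ^ (k - 1) * v y ^ (p - k - 1) ≤ 1 := mul_le_one₀ h3 (by positivity) h4
      exact mul_le_one₀ h5 (apply_nonneg _ _) h2
    have hx0 : 0 ≤ v x := apply_nonneg _ _
    have hy0 : 0 ≤ v y := apply_nonneg _ _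
    have hp0 : 0 ≤ v (p : K) := apply_nonneg _ _
    calc v (p : K) * v x * v y * _ ≤ v (p : K) * 1 * 1 * 1 := by
          gcongr
      _ < 1 := by rw [mul_one, mul_one, mul_one]; exact hv
  have hdiv : ∀ x : K, v x ≤ v g → v (x / g) ≤ 1 := by
    intro x hx
    rw [map_div₀, div_le_one hvg]
    exact hx
  have h1 := key (a / g) (b / g) (hdiv a ha) (hdiv b hb)
  have h2 := key (a / g + b / g) (c / g) (v_add_le v (hdiv a ha) (hdiv b hb)) (hdiv c hc)
  have h3 := v_add_lt v h1 h2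
  have e : (a + b + c) ^ p - (a ^ p + b ^ p + c ^ p) = g ^ p *
      (((a / g + b / g) ^ p - ((a / g) ^ p + (b / g) ^ p)) +
        ((a / g + b / g + c / g) ^ p - ((a / g + b / g) ^ p + (c / g) ^ p))) := by
    have e0 : a / g + b / g + c / g = (a + b + c) / g := by ring
    rw [e0]
    have : g ^ p ≠ 0 := pow_ne_zero _ hg
    simp only [div_pow]
    field_simp
    ring
  rw [e, map_mul, map_pow]
  calc v g ^ p * _ < v g ^ p * 1 := by
        apply mul_lt_mul_of_pos_left h3 (by positivity)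
    _ = v g ^ p := mul_one _

end Pool.Agent.H577.CN
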