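import Pool.Agent.H577.UQ.Global

set_option autoImplicit false

/-! # Elements whose values are p-th powers -/

namespace Pool.Agent.H577.CN

open NumberField IsDedekindDomain Pool.Agent.W7.FH Pool.Agent.H577.UQ

variable {K : Type} [Field K] [NumberField K]

lemma val_zpow (v : FinitePlace K) {t : K} {k : ℤ}
    (h : v.maximalIdeal.valuation K t = WithZero.exp k) : v t = (nrm v : ℝ) ^ k := by
  have h1 := FinitePlace.norm_embedding' v.maximalIdeal t
  rw [FinitePlace.norm_embedding_eq, h] at h1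
  rw [h1]
  have hv : (WithZero.exp k) ≠ 0 := WithZero.exp_ne_zero
  rw [WithZeroMulInt.toNNReal_neg_apply _ hv]
  push_cast
  rfl

open scoped Classical in
lemma val_int (v : FinitePlace K) {a : 𝓞 K} (ha : a ≠ 0) :
    v (a : K) = (nrm v : ℝ) ^ (-(((Associates.mk v.maximalIdeal.asIdeal).count
      (Associates.mk (Ideal.span {a} : Ideal (𝓞 K))).factors : ℕ) : ℤ)) := by
  apply val_zpow
  rw [← v.maximalIdeal.intValuation_if_neg ha]
  exact HeightOneSpectrum.valuation_of_algebraMap _ _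

theorem exists_root {p : ℕ} (hp : p.Prime) (hh : ¬ p ∣ classNumber K) {x : K} (hx : x ≠ 0)
    (h : ∀ v : FinitePlace K, ∃ k : ℤ, v x = (nrm v : ℝ) ^ (p * k)) :
    ∃ (ε : (𝓞 K)ˣ) (y : K), y ≠ 0 ∧ x = (ε : 𝓞 K) * y ^ p := by
  classical
  obtain ⟨a, b, hb, rfl⟩ := IsFractionRing.div_surjective (A := 𝓞 K) x
  have hb0 : b ≠ 0 := nonZeroDivisors.ne_zero hb
  have hbK : (b : K) ≠ 0 := by
    intro h0
    exact hb0 (RingOfIntegers.coe_eq_zero_iff.1 h0)
  have ha0 : a ≠ 0 := by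
    rintro rfl
    simp at hx
  have hp0 := hp.pos
  set z : 𝓞 K := a * b ^ (p - 1) with hz
  have hz0 : z ≠ 0 := mul_ne_zero ha0 (pow_ne_zero _ hb0)
  have hzK : (z : K) = (algebraMap (𝓞 K) K a / algebraMap (𝓞 K) K b) * (b : K) ^ p := by
    have e : (b : K) ^ p = (b : K) ^ (p - 1) * b := by
      rw [← pow_succ]
      congr 1
      omega
    have hbK' : algebraMap (𝓞 K) K b ≠ 0 := hbK
    rw [hz, e]
    push_cast
    change algebraMap (𝓞 K) K a * (algebraMap (𝓞 K) K b) ^ (p - 1) = _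
    field_simp
  have hcount : ∀ P : Associates (Ideal (𝓞 K)), Irreducible P →
      p ∣ P.count (Associates.mk (Ideal.span {z} : Ideal (𝓞 K))).factors := by
    intro P hP
    obtain ⟨I, rfl⟩ := Associates.mk_surjective P
    have hI : Irreducible I := Associates.irreducible_mk.1 hP
    have hIp : Prime I := hI.prime
    let w : HeightOneSpectrum (𝓞 K) := ⟨I, Ideal.isPrime_of_prime hIp, hIp.ne_zero⟩
    set v : FinitePlace K := FinitePlace.mk w with hv
    have hw : v.maximalIdeal = w := FinitePlace.maximalIdeal_mk w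
    have hvI : v.maximalIdeal.asIdeal = I := by rw [hw]
    obtain ⟨k, hk⟩ := h v
    have h1 := val_int v hz0
    have h2 := val_int v hb0
    rw [hvI] at h1 h2
    have h3 : v (z : K) = v (algebraMap (𝓞 K) K a / algebraMap (𝓞 K) K b) * v (b : K) ^ p := by
      rw [hzK, map_mul, map_pow]
    rw [h1, hk, h2, ← zpow_natCast, ← zpow_mul, ← zpow_add₀ (by
      have := one_lt_nrm' v
      positivity)] at h3
    have h4 := zpow_right_injective₀ (by have := one_lt_nrm' v; linarith)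
      (one_lt_nrm' v).ne' h3
    have h5 : ((p : ℕ) : ℤ) ∣ (((Associates.mk I).count
        (Associates.mk (Ideal.span {z} : Ideal (𝓞 K))).factors : ℕ) : ℤ) := by
      refine ⟨((Associates.mk I).count
        (Associates.mk (Ideal.span {b} : Ideal (𝓞 K))).factors : ℤ) - k, ?_⟩
      linear_combination -h4
    exact_mod_cast h5
  have hspan : (Associates.mk (Ideal.span {z} : Ideal (𝓞 K))) ≠ 0 := by
    rw [Ne, Associates.mk_eq_zero, Ideal.zero_eq_bot, Ideal.span_singleton_eq_bot]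
    exact hz0
  obtain ⟨J', hJ'⟩ := Associates.is_pow_of_dvd_count hspan hcount
  obtain ⟨J, rfl⟩ := Associates.mk_surjective J'
  rw [← Associates.mk_pow, Associates.mk_eq_mk_iff_associated, associated_iff_eq] at hJ'
  have hJ : J.IsPrincipal := by
    apply Ideal.IsPrincipal.of_isPrincipal_pow_of_coprime (n := p)
    · exact (Nat.Prime.coprime_iff_not_dvd hp).2 hh
    · rw [← hJ']
      exact ⟨z, rfl⟩
  obtain ⟨w, hw⟩ := hJ
  have hJw : J = Ideal.span {w} := hw
  rw [hJw, Ideal.span_singleton_pow, Ideal.span_singleton_eq_span_singleton] at hJ'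
  obtain ⟨u, hu⟩ := hJ'.symm
  refine ⟨u, (w : K) / b, ?_, ?_⟩
  · apply div_ne_zero _ hbK
    intro h0
    have h1 : w = 0 := RingOfIntegers.coe_eq_zero_iff.1 h0
    rw [h1, zero_pow hp.ne_zero, zero_mul] at hu
    exact hz0 hu.symm
  · have h1 : (w : K) ^ p * ((u : 𝓞 K) : K) = (z : K) := by
      rw [← hu]
      push_cast
      rfl
    rw [div_pow, ← mul_div_assoc, mul_comm, h1, hzK]
    field_simp

/-- no `p`-torsion in quadratic fields for `p ≥ 5` -/
lemma no_torsion (hK : Module.finrank ℚ K = 2) {p : ℕ} (hp : p.Prime) (h5 : 5 ≤ p) {x : K}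
    (h : x ^ p = 1) : x = 1 := by
  by_contra hne
  have hprim : IsPrimitiveRoot x p := by
    have h1 := IsPrimitiveRoot.orderOf x
    have : Fact p.Prime := ⟨hp⟩
    have h2 : orderOf x = p := orderOf_eq_prime h hne
    rwa [h2] at h1
  have h1 : (minpoly ℚ x).natDegree = p.totient := by
    rw [← Polynomial.cyclotomic_eq_minpoly_rat hprim hp.pos, Polynomial.natDegree_cyclotomic]
  have h2 : (minpoly ℚ x).natDegree ≤ Module.finrank ℚ K := minpoly.natDegree_le x
  rw [h1, Nat.totient_prime hp, hK] at h2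
  omega

lemma pow_inj (hK : Module.finrank ℚ K = 2) {p : ℕ} (hp : p.Prime) (h5 : 5 ≤ p) {x y : K}
    (hy : y ≠ 0) (h : x ^ p = y ^ p) : x = y := by
  have h1 : (x / y) ^ p = 1 := by
    rw [div_pow, h]
    exact div_self (pow_ne_zero _ hy)
  have h2 := no_torsion hK hp h5 h1
  rwa [div_eq_one_iff_eq hy] at h2

/-- units of imaginary quadratic fields are `p`-th powers -/
lemma unit_root (hK : Module.finrank ℚ K = 2) {p : ℕ} (hp : p.Prime) (h5 : 5 ≤ p)
    {σ τ : K →ₐ[ℚ] ℂ} (hmem : ∀ ρ : K →ₐ[ℚ] ℂ, ρ = σ ∨ ρ = τ)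
    (hN : ∀ x : K, ((|Algebra.norm ℚ x| : ℚ) : ℝ) = ‖σ x‖ * ‖τ x‖)
    (hτ : ∀ x, ‖τ x‖ = ‖σ x‖) (ε : (𝓞 K)ˣ) : ∃ y : K, y ≠ 0 ∧ ((ε : 𝓞 K) : K) = y ^ p := by
  set x : K := ((ε : 𝓞 K) : K) with hx
  have hx0 : x ≠ 0 := by
    intro h0
    have : (ε : 𝓞 K) = 0 := RingOfIntegers.coe_eq_zero_iff.1 h0
    exact ε.ne_zero this
  have h1 : ((|Algebra.norm ℚ x| : ℚ) : ℝ) = 1 := by
    have h2 := NumberField.isUnit_iff_norm.1 ε.isUnit
    have h3 : |Algebra.norm ℚ x| = 1 := by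
      rw [← h2]
      rfl
    rw [h3]
    norm_num
  have h2 : ‖σ x‖ = 1 := by
    rw [hN, hτ] at h1
    nlinarith [norm_nonneg (σ x)]
  have h3 : ∀ φ : K →+* ℂ, ‖φ x‖ = 1 := by
    intro φ
    let ψ : K →ₐ[ℚ] ℂ := RingHom.equivRatAlgHom K ℂ φ
    have hψ : ψ x = φ x := rfl
    rw [← hψ]
    rcases hmem ψ with h4 | h4
    · rw [h4, h2]
    · rw [h4, hτ, h2]
  obtain ⟨m, hm, hxm⟩ := NumberField.Embeddings.pow_eq_one_of_norm_eq_one K ℂ
    (RingOfIntegers.isIntegral_coe (ε : 𝓞 K)) h3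
  have hfin : IsOfFinOrder x := isOfFinOrder_iff_pow_eq_one.2 ⟨m, hm, hxm⟩
  have hord := hfin.orderOf_pos
  have hco : Nat.Coprime p (orderOf x) := by
    rw [Nat.Prime.coprime_iff_not_dvd hp]
    rintro ⟨c, hc⟩
    have hc0 : 0 < c := by
      rcases Nat.eq_zero_or_pos c with h4 | h4
      · rw [h4, mul_zero] at hc
        omega
      · exact h4
    have h4 : (x ^ c) ^ p = 1 := by
      rw [← pow_mul, mul_comm, ← hc, pow_orderOf_eq_one]
    have h5' := no_torsion hK hp h5 h4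
    have h6 := orderOf_dvd_of_pow_eq_one h5'
    have h7 := Nat.le_of_dvd hc0 h6
    rw [hc] at h7
    have := hp.two_le
    nlinarith
  obtain ⟨y, hy⟩ := exists_pow_eq_self_of_coprime hco
  refine ⟨x ^ y, pow_ne_zero _ hx0, ?_⟩
  rw [← pow_mul, mul_comm, pow_mul]
  exact hy.symm

end Pool.Agent.H577.CN
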