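import Pool.Agent.H577.CN.Residue

set_option autoImplicit false

/-! # Binomial expansions at a place above two -/

namespace Pool.Agent.H577.CN

open NumberField IsDedekindDomain Pool.Agent.W7.FH Pool.Agent.H577.UQ

variable {K : Type} [Field K] [NumberField K]

lemma v_sum_le (v : FinitePlace K) {C : ℝ} (hC : 0 ≤ C) {ι : Type} (s : Finset ι) (f : ι → K)
    (h : ∀ i ∈ s, v (f i) ≤ C) : v (∑ i ∈ s, f i) ≤ C := by
  classical
  induction s using Finset.induction_on with
  | empty => simpa using hC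
  | insert a s ha ih =>
    rw [Finset.sum_insert ha]
    exact v_add_le v (h a (Finset.mem_insert_self a s))
      (ih fun i hi => h i (Finset.mem_insert_of_mem hi))

lemma odd_one (v : FinitePlace K) (h2 : v (2 : K) < 1) {n : ℕ} (hn : Odd n) : v (n : K) = 1 := by
  obtain ⟨k, rfl⟩ := hn
  refine v_eq_one v (y := 1) (map_one v) ?_
  push_cast
  rw [add_sub_cancel_right, map_mul]
  have := natCast_le_one v k
  calc v (2 : K) * v (k : K) ≤ v (2 : K) * 1 := by
        have : 0 ≤ v (2 : K) := apply_nonneg _ _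
        gcongr
    _ < 1 := by rw [mul_one]; exact h2

lemma even_le (v : FinitePlace K) {n : ℕ} (hn : Even n) : v (n : K) ≤ v (2 : K) := by
  obtain ⟨k, rfl⟩ := hn
  have e : ((k + k : ℕ) : K) = 2 * k := by push_cast; ring
  rw [e, map_mul]
  calc v (2 : K) * v (k : K) ≤ v (2 : K) * 1 := by
        have : 0 ≤ v (2 : K) := apply_nonneg _ _
        have := natCast_le_one v k
        gcongr
    _ = _ := mul_one _

lemma val_nat (v : FinitePlace K) (h2 : v (2 : K) < 1) (r : ℕ) :
    3 ≤ r → v (2 : K) ^ (r - 2) ≤ v (r : K) := by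
  have h0 : 0 ≤ v (2 : K) := apply_nonneg _ _
  induction r using Nat.strong_induction_on with
  | _ r ih =>
    intro hr
    rcases Nat.even_or_odd r with he | ho
    · obtain ⟨k, rfl⟩ := he
      have e : ((k + k : ℕ) : K) = 2 * k := by push_cast; ring
      rw [e, map_mul]
      rcases (show k = 2 ∨ 3 ≤ k by omega) with rfl | hk
      · push_cast
        rw [← sq]
      · calc v (2 : K) ^ (k + k - 2) = v (2 : K) ^ (k + 1 - 1) * v (2 : K) ^ (k - 2) := by
              rw [← pow_add]
              congr 1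
              omega
          _ ≤ v (2 : K) ^ 1 * v (k : K) := by
              apply mul_le_mul _ (ih k (by omega) hk) (by positivity) (by positivity)
              exact pow_le_pow_of_le_one h0 h2.le (by omega)
          _ = _ := by rw [pow_one]
    · rw [odd_one v h2 ho]
      exact pow_le_one₀ h0 h2.le

lemma val_rr (v : FinitePlace K) (h2 : v (2 : K) < 1) {r : ℕ} (hr : 3 ≤ r) :
    v (2 : K) ^ (r - 2) ≤ v (r : K) * v ((r - 1 : ℕ) : K) := by
  have h0 : 0 ≤ v (2 : K) := apply_nonneg _ _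
  rcases Nat.even_or_odd r with he | ho
  · rw [odd_one v h2 (n := r - 1) (by
      obtain ⟨k, rfl⟩ := he
      exact ⟨k - 1, by omega⟩), mul_one]
    exact val_nat v h2 r hr
  · rw [odd_one v h2 ho, one_mul]
    rcases (show r = 3 ∨ 4 ≤ r by omega) with rfl | h4
    · norm_num
    · refine le_trans ?_ (val_nat v h2 (r - 1) (by omega))
      exact pow_le_pow_of_le_one h0 h2.le (by omega)

lemma choose_val (v : FinitePlace K) (n r : ℕ) (hr : 2 ≤ r) :
    v (n.choose r : K) * (v (r : K) * v ((r - 1 : ℕ) : K)) ≤ v (n : K) * v ((n - 1 : ℕ) : K) := by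
  rcases Nat.lt_or_ge n 2 with hn | hn
  · rw [Nat.choose_eq_zero_of_lt (by omega)]
    simp only [Nat.cast_zero, map_zero, zero_mul]
    have := apply_nonneg v (n : K)
    have := apply_nonneg v ((n - 1 : ℕ) : K)
    positivity
  · obtain ⟨n', rfl⟩ : ∃ n', n = n' + 2 := ⟨n - 2, by omega⟩
    obtain ⟨r', rfl⟩ : ∃ r', r = r' + 2 := ⟨r - 2, by omega⟩
    have e1 : n' + 2 - 1 = n' + 1 := rfl
    have e2 : r' + 2 - 1 = r' + 1 := rfl
    rw [e1, e2]
    have h1 := Nat.add_one_mul_choose_eq (n' + 1) (r' + 1)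
    have h2 := Nat.add_one_mul_choose_eq n' r'
    have h3 : (n' + 2).choose (r' + 2) * ((r' + 2) * (r' + 1)) =
        (n' + 2) * (n' + 1) * n'.choose r' := by
      calc _ = ((n' + 1 + 1).choose (r' + 1 + 1) * (r' + 1 + 1)) * (r' + 1) := by ring
        _ = (n' + 1 + 1) * ((n' + 1).choose (r' + 1) * (r' + 1)) := by rw [← h1]; ring
        _ = _ := by rw [← h2]; ring
    have h4 : ((n' + 2).choose (r' + 2) : K) * ((((r' + 2 : ℕ) : K)) * ((r' + 1 : ℕ) : K)) =
        ((n' + 2 : ℕ) : K) * ((n' + 1 : ℕ) : K) * (n'.choose r' : K) := by exact_mod_cast h3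
    rw [← map_mul, ← map_mul, h4, map_mul, map_mul]
    have := natCast_le_one v (n'.choose r')
    have := apply_nonneg v ((n' + 2 : ℕ) : K)
    have := apply_nonneg v ((n' + 1 : ℕ) : K)
    calc _ ≤ v ((n' + 2 : ℕ) : K) * v ((n' + 1 : ℕ) : K) * 1 := by gcongr
      _ = _ := mul_one _

/-- the binomial expansion to second order -/
lemma T2 (v : FinitePlace K) (h2 : v (2 : K) < 1) {z : K} (hz : v z ≤ v (2 : K)) (n : ℕ) :
    v ((1 + z) ^ n - 1 - n * z - n.choose 2 * z ^ 2) ≤
      v (n : K) * v ((n - 1 : ℕ) : K) * v z ^ 2 := by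
  have h0 : 0 ≤ v (2 : K) := apply_nonneg _ _
  have hz0 : 0 ≤ v z := apply_nonneg _ _
  set f : ℕ → K := fun r => z ^ r * (n.choose r : K) with hf
  have h1 : (1 + z) ^ n = ∑ r ∈ Finset.range (n + 3), f r := by
    have e : (1 + z) ^ n = ∑ r ∈ Finset.range (n + 1), f r := by
      rw [add_comm 1 z, add_pow]
      refine Finset.sum_congr rfl fun r _ => ?_
      rw [one_pow, mul_one]
    rw [e, Finset.sum_range_succ f (n + 2), Finset.sum_range_succ f (n + 1)]
    have e1 : f (n + 2) = 0 := by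
      rw [hf]
      simp only
      rw [Nat.choose_eq_zero_of_lt (by omega)]
      simp
    have e2 : f (n + 1) = 0 := by
      rw [hf]
      simp only
      rw [Nat.choose_eq_zero_of_lt (by omega)]
      simp
    rw [e1, e2, add_zero, add_zero]
  have h3 : (1 + z) ^ n - 1 - n * z - n.choose 2 * z ^ 2 =
      ∑ r ∈ Finset.range n, f (r + 1 + 1 + 1) := by
    rw [h1, Finset.sum_range_succ' f (n + 2), Finset.sum_range_succ' (fun i => f (i + 1)) (n + 1),
      Finset.sum_range_succ' (fun i => f (i + 1 + 1)) n]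
    have e0 : f 0 = 1 := by simp [hf]
    have e1 : f (0 + 1) = n * z := by simp [hf, mul_comm]
    have e2 : f (0 + 1 + 1) = n.choose 2 * z ^ 2 := by
      simp [hf, mul_comm]
    rw [e0, e1, e2]
    ring
  rw [h3]
  have hn0 := apply_nonneg v (n : K)
  have hn1 := apply_nonneg v ((n - 1 : ℕ) : K)
  refine v_sum_le v (by positivity) _ _ fun r _ => ?_
  set R := r + 1 + 1 + 1 with hR
  have hR3 : 3 ≤ R := by omega
  rw [hf]
  simp only
  rw [map_mul, map_pow]
  have h4 := choose_val v n R (by omega)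
  have h5 := val_rr v h2 hR3
  have h6 : v z ^ R = v z ^ (R - 2) * v z ^ 2 := by
    rw [← pow_add]
    congr 1
  have h7 : v z ^ (R - 2) ≤ v (R : K) * v ((R - 1 : ℕ) : K) :=
    (pow_le_pow_left₀ hz0 hz _).trans h5
  have hc := apply_nonneg v (n.choose R : K)
  calc v z ^ R * v (n.choose R : K) = (v (n.choose R : K) * v z ^ (R - 2)) * v z ^ 2 := by
        rw [h6]; ring
    _ ≤ (v (n.choose R : K) * (v (R : K) * v ((R - 1 : ℕ) : K))) * v z ^ 2 := by gcongr
    _ ≤ _ := by gcongr

/-- the binomial expansion to first order -/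
lemma F1 (v : FinitePlace K) {y z : K} (hy : v y ≤ 1) (hz : v z ≤ 1) (n : ℕ) :
    ∃ G : K, v G ≤ 1 ∧ (y + z) ^ (n + 1) = y ^ (n + 1) + (n + 1 : ℕ) * y ^ n * z + z ^ 2 * G := by
  induction n with
  | zero => exact ⟨0, by simp, by simp⟩
  | succ n ih =>
    obtain ⟨G, hG, h⟩ := ih
    refine ⟨y * G + (n + 1 : ℕ) * y ^ n + z * G, ?_, ?_⟩
    · have hG0 := apply_nonneg v G
      apply v_add_le
      · apply v_add_le
        · rw [map_mul]
          exact mul_le_one₀ hy hG0 hG
        · rw [map_mul, map_pow]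
          exact mul_le_one₀ (natCast_le_one v _) (by have := apply_nonneg v y; positivity)
            (pow_le_one₀ (apply_nonneg _ _) hy)
      · rw [map_mul]
        exact mul_le_one₀ hz hG0 hG
    · rw [pow_succ (y + z) (n + 1), h]
      push_cast
      ring

end Pool.Agent.H577.CN
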