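import Pool.Agent.H577.CN.TwoMain

set_option autoImplicit false
set_option linter.unusedSectionVars false

/-! # The contradiction at a place above two -/

namespace Pool.Agent.H577.CN

open NumberField IsDedekindDomain Pool.Agent.W7.FH Pool.Agent.H577.UQ

variable {K : Type} [Field K] [NumberField K]

/-- the case where the sum of the coordinates is a unit -/
lemma resid (v : FinitePlace K) (h2 : v (2 : K) < 1) {p : ℕ} (hp : Odd p) {a b c s : K}
    (ha : v a = 1) (hb : v b ≤ 1) (hc : v c ≤ 1) (hs1 : v s ≤ 1) (hsum : v (a + b + c) < 1)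
    (hs : v (s - a) < 1) (hP : v (a ^ p + b ^ p + c ^ p) < 1) :
    (s - a) ^ p + (s - b) ^ p + (s - c) ^ p ≠ 0 := by
  intro h0
  have hp0 : 0 < p := hp.pos
  have key : ∀ y z : K, v y ≤ 1 → v z ≤ 1 → v (a + y + z) < 1 →
      v ((s - y) ^ p + z ^ p) < 1 := by
    intro y z hy hz hyz
    have e : (s - y) ^ p + z ^ p = (s - y) ^ p - (-z) ^ p := by
      rw [hp.neg_pow]
      ring
    rw [e]
    refine lt_of_le_of_lt (pow_sub_pow_le v (v_sub_le v hs1 hy) (by rwa [map_neg_eq_map]) p) ?_
    have e2 : s - y - -z = (s - a) + (a + y + z) - 2 * y := by ring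
    rw [e2]
    apply v_sub_lt v (v_add_lt v hs hyz)
    rw [map_mul]
    calc _ ≤ v (2 : K) * 1 := by
          have := apply_nonneg v (2 : K)
          gcongr
      _ < 1 := by rw [mul_one]; exact h2
  have h3 := key b c hb hc hsum
  have h4 := key c b hc hb (by rwa [add_right_comm])
  have h5 : v ((s - a) ^ p) < 1 := by
    rw [map_pow]
    exact pow_lt_one₀ (apply_nonneg _ _) hs hp0.ne'
  have e : a ^ p = (a ^ p + b ^ p + c ^ p) - ((s - a) ^ p + ((s - b) ^ p + c ^ p) +
      ((s - c) ^ p + b ^ p)) := by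
    linear_combination h0
  have h6 : v (a ^ p) < 1 := by
    rw [e]
    exact v_sub_lt v hP (v_add_lt v (v_add_lt v h5 h3) h4)
  rw [map_pow, ha, one_pow] at h6
  exact lt_irrefl _ h6

/-- the second order expansion -/
lemma expand2 (v : FinitePlace K) (h2 : v (2 : K) < 1) {y s : K} (hy : v y = 1)
    (hs : v s ≤ v (2 : K)) (k : ℕ) :
    ∃ E : K, v E ≤ v ((k + 1 : ℕ) : K) * v s ^ 2 ∧ (y - s) ^ (k + 2) = y ^ (k + 2) -
      (k + 2 : ℕ) * s * y ^ (k + 1) + ((k + 2).choose 2 : ℕ) * s ^ 2 * y ^ k + E := by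
  have hy0 : y ≠ 0 := by
    rintro rfl
    rw [map_zero] at hy
    exact zero_ne_one hy
  set z := -s / y with hz
  have hvz : v z = v s := by
    rw [hz, map_div₀, map_neg_eq_map, hy, div_one]
  have h3 := T2 v h2 (z := z) (by rw [hvz]; exact hs) (k + 2)
  refine ⟨y ^ (k + 2) * ((1 + z) ^ (k + 2) - 1 - (k + 2 : ℕ) * z -
    ((k + 2).choose 2 : ℕ) * z ^ 2), ?_, ?_⟩
  · rw [map_mul, map_pow, hy, one_pow, one_mul]
    refine h3.trans ?_
    rw [hvz]
    have := natCast_le_one v (k + 2)
    have := apply_nonneg v ((k + 2 - 1 : ℕ) : K)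
    calc _ ≤ 1 * v ((k + 2 - 1 : ℕ) : K) * v s ^ 2 := by gcongr
      _ = _ := by rw [one_mul]; rfl
  · have e : y - s = y * (1 + z) := by
      rw [hz]
      field_simp
      ring
    have e1 : s = -(y * z) := by
      rw [hz]
      field_simp
    rw [e, mul_pow]
    have e2 : (k + 2 : ℕ) * s * y ^ (k + 1) = -((k + 2 : ℕ) * z * y ^ (k + 2)) := by
      rw [e1]
      ring
    have e3 : ((k + 2).choose 2 : ℕ) * s ^ 2 * y ^ k =
        ((k + 2).choose 2 : ℕ) * z ^ 2 * y ^ (k + 2) := by
      rw [e1]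
      ring
    rw [e2, e3]
    ring

theorem no_sol {v : FinitePlace K} {x : K} (h : At2 v x)
    (h4 : ∀ z : K, v z = 1 → v (z ^ 3 - 1) < 1) {p : ℕ} (hp : p.Prime) (h5 : 5 ≤ p) {s : K}
    (hs : 2 * s = P x p)
    (hf : (s - 1) ^ p + (s - x ^ p) ^ p + (s - (-1 - x) ^ p) ^ p = 0) : False := by
  have hodd : Odd p := hp.odd_of_ne_two (by omega)
  have h3 : p % 3 ≠ 0 := by
    intro h0
    have := (Nat.prime_dvd_prime_iff_eq Nat.prime_three hp).1 (Nat.dvd_of_mod_eq_zero h0)
    omega
  have h20 := h.two_pos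
  have h21 := h.two
  have he0 := h.eta_pos
  have hel := h.eta_le
  have hv1 : v (p : K) = 1 := odd_one v h21 hodd
  have hsP : v (2 : K) * v s = v (P x p) := by rw [← hs, map_mul]
  set η := x ^ 2 + x + 1 with hη
  have hxp : v (x ^ p) = 1 := by rw [map_pow, h.x_eq, one_pow]
  have hxp' : v ((-1 - x) ^ p) = 1 := by rw [map_pow, h.swap.x_eq, one_pow]
  -- the equation for `y - s`
  have hf' : (1 - s) ^ p + (x ^ p - s) ^ p + ((-1 - x) ^ p - s) ^ p = 0 := by
    have e1 : (1 - s) ^ p = -(s - 1) ^ p := by rw [← hodd.neg_pow, neg_sub]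
    have e2 : (x ^ p - s) ^ p = -(s - x ^ p) ^ p := by rw [← hodd.neg_pow, neg_sub]
    have e3 : ((-1 - x) ^ p - s) ^ p = -(s - (-1 - x) ^ p) ^ p := by rw [← hodd.neg_pow, neg_sub]
    rw [e1, e2, e3]
    linear_combination -hf
  have hppmod : p * p % 3 = 1 := by
    rw [Nat.mul_mod]
    have : p % 3 = 1 ∨ p % 3 = 2 := by omega
    rcases this with h0 | h0 <;> rw [h0]
  obtain ⟨M, hM⟩ : ∃ M, p * p = 3 * M + 1 := ⟨p * p / 3, by omega⟩
  have hM3 : v (M : K) = v ((p - 1 : ℕ) : K) * v ((p + 1 : ℕ) : K) := by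
    obtain ⟨q, rfl⟩ : ∃ q, p = q + 1 := ⟨p - 1, by omega⟩
    have e1 : 3 * M = (q + 1 - 1) * (q + 1 + 1) := by
      simp only [Nat.add_sub_cancel]
      nlinarith
    have e2 : (3 : K) * M = ((q + 1 - 1 : ℕ) : K) * ((q + 1 + 1 : ℕ) : K) := by exact_mod_cast e1
    rw [← map_mul, ← e2, map_mul, h.three, one_mul]
  have hp1 : v ((p + 1 : ℕ) : K) ≤ v (2 : K) := by
    apply even_le
    obtain ⟨k, rfl⟩ := hodd
    exact ⟨k + 1, by omega⟩
  have hc0 : 0 < v ((p - 1 : ℕ) : K) := by
    apply FinitePlace.pos_iff.mpr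
    have : p - 1 ≠ 0 := by omega
    exact_mod_cast this
  have hM2 : v (M : K) ≤ v ((p - 1 : ℕ) : K) * v (2 : K) := by
    rw [hM3]
    gcongr
  have hPpp : v (P x (p * p)) ≤ v ((p - 1 : ℕ) : K) * v η ^ 2 := by
    have h6 := h.P1_le M
    rw [← hM] at h6
    have h7 : v (P x (p * p)) * v (2 : K) ≤ (v ((p - 1 : ℕ) : K) * v η ^ 2) * v (2 : K) := by
      refine h6.trans ?_
      calc v (M : K) * v η ^ 2 ≤ (v ((p - 1 : ℕ) : K) * v (2 : K)) * v η ^ 2 := by gcongr
        _ = _ := by ring
    exact le_of_mul_le_mul_right h7 h20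
  have ePpp : P x (p * p) = 1 + (x ^ p) ^ p + ((-1 - x) ^ p) ^ p := by
    unfold P
    rw [← pow_mul, ← pow_mul]
  rcases (show p % 3 = 1 ∨ p % 3 = 2 by omega) with hmod | hmod
  · -- `p = 3 m + 1`
    obtain ⟨m, hm⟩ : ∃ m, p = 3 * m + 1 := ⟨p / 3, by omega⟩
    have hmeven : Even m := by
      rcases Nat.even_or_odd m with h0 | h0
      · exact h0
      · exfalso
        obtain ⟨a, ha⟩ := h0
        obtain ⟨b, hb⟩ := hodd
        omega
    have hm0 : m ≠ 0 := by omega
    have hvm : v ((p - 1 : ℕ) : K) = v (m : K) := by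
      have : p - 1 = 3 * m := by omega
      rw [this]
      push_cast
      rw [map_mul, h.three, one_mul]
    have hA := h.P1_eq hmeven hm0
    rw [← hm, ← hsP, ← hvm] at hA
    -- `v s < 1`
    have hs1 : v s ≤ v ((p - 1 : ℕ) : K) := by
      have h6 : v (2 : K) * v s * v (2 : K) ≤ v ((p - 1 : ℕ) : K) * v (2 : K) ^ 2 := by
        rw [hA]
        gcongr
      have h7 : v s * v (2 : K) ^ 2 ≤ v ((p - 1 : ℕ) : K) * v (2 : K) ^ 2 := by
        calc _ = v (2 : K) * v s * v (2 : K) := by ring
          _ ≤ _ := h6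
      exact le_of_mul_le_mul_right h7 (by positivity)
    have hs2 : v s < 1 := lt_of_le_of_lt (hs1.trans (by
      rw [hvm]
      exact even_le v hmeven)) h21
    have hs0 : 0 < v s := by
      have h6 : 0 < v (2 : K) * v s * v (2 : K) := by rw [hA]; positivity
      by_contra h7
      have h8 : v s = 0 := le_antisymm (not_lt.1 h7) (apply_nonneg _ _)
      rw [h8] at h6
      simp at h6
    have hns : v (-s) ≤ 1 := by rw [map_neg_eq_map]; exact hs2.le
    obtain ⟨q, hq⟩ : ∃ q, p = q + 1 := ⟨p - 1, by omega⟩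
    obtain ⟨G0, hG0, e0⟩ := F1 v (y := 1) (by rw [map_one]) hns q
    obtain ⟨G1, hG1, e1⟩ := F1 v hxp.le hns q
    obtain ⟨G2, hG2, e2⟩ := F1 v hxp'.le hns q
    rw [← hq, ← sub_eq_add_neg] at e0 e1 e2
    have ePq : P x (p * q) = 1 + (x ^ p) ^ q + ((-1 - x) ^ p) ^ q := by
      unfold P
      rw [← pow_mul, ← pow_mul]
    have hPq : v (P x (p * q)) = 1 := by
      have e3 : p * q = 3 * (p * m) := by
        have : q = 3 * m := by omega
        rw [this]
        ring
      rw [e3]
      exact h.P0 _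
    have hid : (p : K) * s * P x (p * q) = P x (p * p) + s ^ 2 * (G0 + G1 + G2) := by
      rw [e0, e1, e2] at hf'
      rw [ePq, ePpp]
      linear_combination -hf'
    have h6 := congrArg v hid
    rw [map_mul, map_mul, hv1, hPq, one_mul, mul_one] at h6
    have h7 : v (P x (p * p) + s ^ 2 * (G0 + G1 + G2)) < v s := by
      apply v_add_lt
      · refine lt_of_le_of_lt hPpp ?_
        rw [← hA]
        calc v (2 : K) * v s * v (2 : K) = (v (2 : K) * v (2 : K)) * v s := by ring
          _ < (1 * 1) * v s := by gcongr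
          _ = v s := by ring
      · rw [map_mul, map_pow]
        have h8 : v (G0 + G1 + G2) ≤ 1 := v_add_le v (v_add_le v hG0 hG1) hG2
        calc v s ^ 2 * v (G0 + G1 + G2) ≤ v s ^ 2 * 1 := by gcongr
          _ = v s * v s := by ring
          _ < v s * 1 := by gcongr
          _ = v s := mul_one _
    rw [← h6] at h7
    exact lt_irrefl _ h7
  · -- `p = 3 m + 2`
    obtain ⟨m, hm⟩ : ∃ m, p = 3 * m + 2 := ⟨p / 3, by omega⟩
    have hmodd : Odd m := by
      rcases Nat.even_or_odd m with h0 | h0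
      · exfalso
        obtain ⟨a, ha⟩ := h0
        obtain ⟨b, hb⟩ := hodd
        omega
      · exact h0
    have hA := h.P2_eq hmodd
    rw [← hm, ← hsP] at hA
    have hs1 : v s ≤ 1 := by
      have h6 : v (2 : K) * v s ≤ v (2 : K) * 1 := by
        rw [hA, mul_one]
        exact hel
      exact le_of_mul_le_mul_left h6 h20
    rcases hs1.lt_or_eq with hs2 | hs2
    · -- `v s < 1`
      have hs3 := h.disc s hs2
      have hs0 : 0 < v s := by
        have h6 : 0 < v (2 : K) * v s := by rw [hA]; exact he0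
        by_contra h7
        have h8 : v s = 0 := le_antisymm (not_lt.1 h7) (apply_nonneg _ _)
        rw [h8] at h6
        simp at h6
      obtain ⟨k, hk⟩ : ∃ k, p = k + 2 := ⟨p - 2, by omega⟩
      obtain ⟨G0, hG0, e0⟩ := expand2 v h21 (y := 1) (map_one v) hs3 k
      obtain ⟨G1, hG1, e1⟩ := expand2 v h21 hxp hs3 k
      obtain ⟨G2, hG2, e2⟩ := expand2 v h21 hxp' hs3 k
      rw [← hk] at e0 e1 e2
      have hk1 : k + 1 = p - 1 := by omega
      rw [hk1] at e0 e1 e2 hG0 hG1 hG2
      have ePq : P x (p * (p - 1)) = 1 + (x ^ p) ^ (p - 1) + ((-1 - x) ^ p) ^ (p - 1) := by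
        unfold P
        rw [← pow_mul, ← pow_mul]
      have ePk : P x (p * k) = 1 + (x ^ p) ^ k + ((-1 - x) ^ p) ^ k := by
        unfold P
        rw [← pow_mul, ← pow_mul]
      have hPk : v (P x (p * k)) = 1 := by
        have e3 : p * k = 3 * (p * m) := by
          have : k = 3 * m := by omega
          rw [this]
          ring
        rw [e3]
        exact h.P0 _
      have hPq : v (P x (p * (p - 1))) ≤ v ((p - 1 : ℕ) : K) * v η := by
        have h6 := h.P_le (n := p * (p - 1)) (by
          apply Nat.mul_ne_zero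
          · omega
          · omega) (by
          rw [Nat.mul_mod, hmod]
          have : (p - 1) % 3 = 1 := by omega
          rw [this]
          norm_num)
        rw [Nat.cast_mul, map_mul, hv1, one_mul] at h6
        exact h6
      have hid : (p.choose 2 : K) * s ^ 2 * P x (p * k) =
          p * s * P x (p * (p - 1)) - P x (p * p) - (G0 + G1 + G2) := by
        rw [e0, e1, e2] at hf'
        rw [ePq, ePpp, ePk]
        linear_combination hf'
      have hC := choose_two_val v p
      rw [hv1, one_mul] at hC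
      set c := v ((p - 1 : ℕ) : K) with hc
      have h6 := congrArg v hid
      rw [map_mul, map_mul, hPk, mul_one, map_pow] at h6
      have h7 : v (p.choose 2 : K) * v s ^ 2 * v (2 : K) = c * v s ^ 2 := by
        rw [← hC]
        ring
      have h8 : v (p * s * P x (p * (p - 1)) - P x (p * p) - (G0 + G1 + G2)) ≤ c * v s ^ 2 := by
        apply v_sub_le
        · apply v_sub_le
          · rw [map_mul, map_mul, hv1, one_mul]
            calc v s * v (P x (p * (p - 1))) ≤ v s * (c * v η) := by gcongr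
              _ = v s * (c * (v (2 : K) * v s)) := by rw [hA]
              _ ≤ v s * (c * (1 * v s)) := by gcongr
              _ = _ := by ring
          · refine hPpp.trans ?_
            rw [← hA]
            calc c * (v (2 : K) * v s) ^ 2 ≤ c * (1 * v s) ^ 2 := by gcongr
              _ = _ := by ring
        · exact v_add_le v (v_add_le v hG0 hG1) hG2
      rw [← h6] at h8
      have h9 : c * v s ^ 2 ≤ c * v s ^ 2 * v (2 : K) := by
        rw [← h7]
        rw [← h7] at h8
        calc v (p.choose 2 : K) * v s ^ 2 * v (2 : K) ≤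
              (v (p.choose 2 : K) * v s ^ 2 * v (2 : K)) * v (2 : K) := by gcongr
          _ = _ := rfl
      have h10 : 0 < c * v s ^ 2 := by positivity
      nlinarith
    · -- `s` is a unit
      have hPp : v (P x (p * p)) < 1 := by
        refine lt_of_le_of_lt hPpp ?_
        have h6 := natCast_le_one v (p - 1)
        calc v ((p - 1 : ℕ) : K) * v η ^ 2 ≤ 1 * v η ^ 2 := by gcongr
          _ = v η ^ 2 := one_mul _
          _ < 1 := pow_lt_one₀ he0.le h.small (by norm_num)
      have hsum : v (1 + x ^ p + (-1 - x) ^ p) < 1 := by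
        have : 1 + x ^ p + (-1 - x) ^ p = 2 * s := hs.symm
        rw [this, map_mul, hs2, mul_one]
        exact h21
      rw [ePpp] at hPp
      -- one of the three differences is small
      have hnear : ∀ y : K, At2 v y → y ^ 2 + y + 1 = η → v (y ^ p - (-1 - y)) < 1 := by
        intro y hy hyη
        have e : y ^ p - (-1 - y) = y ^ 2 * (y ^ (3 * m) - 1) + η := by
          rw [hm, pow_add, ← hyη]
          ring
        rw [e]
        apply v_add_lt _ _ h.small
        rw [map_mul, map_pow, hy.x_eq, one_pow, one_mul]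
        have h6 := hy.pow3 m
        rw [hyη] at h6
        exact lt_of_le_of_lt h6 h.small
      have hn1 := hnear x h rfl
      have hn2 := hnear (-1 - x) h.swap (eta_swap x)
      rw [show (-1 - (-1 - x) : K) = x by ring] at hn2
      have hprod : v ((s - 1) * ((s - (-1 - x)) * (s - x))) < 1 := by
        have e : (s - 1) * ((s - (-1 - x)) * (s - x)) = (s ^ 3 - 1) - (s - 1) * η := by
          rw [hη]
          ring
        rw [e]
        apply v_sub_lt v (h4 s hs2)
        rw [map_mul]
        have h6 : v (s - 1) ≤ 1 := v_sub_le v hs1 (by rw [map_one])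
        calc v (s - 1) * v η ≤ 1 * v η := by gcongr
          _ < 1 := by rw [one_mul]; exact h.small
      have hor : v (s - 1) < 1 ∨ v (s - (-1 - x)) < 1 ∨ v (s - x) < 1 := by
        by_contra hcon
        push Not at hcon
        rw [map_mul, map_mul] at hprod
        have h6 : 1 ≤ v (s - (-1 - x)) * v (s - x) := one_le_mul_of_one_le_of_one_le hcon.2.1 hcon.2.2
        have h7 := one_le_mul_of_one_le_of_one_le hcon.1 h6
        linarith
      rcases hor with h6 | h6 | h6
      · refine resid v h21 hodd (a := 1) (b := x ^ p) (c := (-1 - x) ^ p) (map_one v) hxp.le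
          hxp'.le hs1 hsum h6 (by rw [one_pow]; exact hPp) hf
      · have h7 : v (s - x ^ p) < 1 := by
          have e : s - x ^ p = (s - (-1 - x)) - (x ^ p - (-1 - x)) := by ring
          rw [e]
          exact v_sub_lt v h6 hn1
        refine resid v h21 hodd (a := x ^ p) (b := 1) (c := (-1 - x) ^ p) hxp (by rw [map_one])
          hxp'.le hs1 ?_ h7 ?_ ?_
        · rw [add_comm (x ^ p) 1]
          exact hsum
        · rw [one_pow, add_comm ((x ^ p) ^ p) 1]
          exact hPp
        · rw [add_comm ((s - x ^ p) ^ p)]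
          exact hf
      · have h7 : v (s - (-1 - x) ^ p) < 1 := by
          have e : s - (-1 - x) ^ p = (s - x) - ((-1 - x) ^ p - x) := by ring
          rw [e]
          exact v_sub_lt v h6 hn2
        refine resid v h21 hodd (a := (-1 - x) ^ p) (b := x ^ p) (c := 1) hxp' hxp.le
          (by rw [map_one]) hs1 ?_ h7 ?_ ?_
        · have e : (-1 - x) ^ p + x ^ p + 1 = 1 + x ^ p + (-1 - x) ^ p := by ring
          rw [e]
          exact hsum
        · have e : ((-1 - x) ^ p) ^ p + (x ^ p) ^ p + 1 ^ p =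
              1 + (x ^ p) ^ p + ((-1 - x) ^ p) ^ p := by rw [one_pow]; ring
          rw [e]
          exact hPp
        · linear_combination hf

end Pool.Agent.H577.CN
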