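import Pool.Agent.H577.CN.Power

set_option autoImplicit false
set_option linter.unusedSectionVars false

/-! # The contradiction at a place above two -/

namespace Pool.Agent.H577.CN

open NumberField IsDedekindDomain Pool.Agent.W7.FH Pool.Agent.H577.UQ

variable {K : Type} [Field K] [NumberField K]

lemma choose_two_val (v : FinitePlace K) (m : ℕ) :
    v (m.choose 2 : K) * v (2 : K) = v (m : K) * v ((m - 1 : ℕ) : K) := by
  have h1 : m.choose 2 * 2 = m * (m - 1) := by
    rw [Nat.choose_two_right]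
    exact Nat.div_mul_cancel (Nat.even_mul_pred_self m).two_dvd
  have h2 : (m.choose 2 : K) * 2 = (m : K) * ((m - 1 : ℕ) : K) := by exact_mod_cast h1
  rw [← map_mul, ← map_mul, h2]

section

variable {v : FinitePlace K} {x : K} (h : At2 v x)

include h

/-- the expansion of `P (3 m + 1)` -/
lemma At2.P1_expand (m : ℕ) : ∃ E : K, v E ≤ v (m : K) * v ((m - 1 : ℕ) : K) *
      v (x ^ 2 + x + 1) ^ 2 ∧ P x (3 * m + 1) = 2 * m * (x ^ 2 + x + 1) ^ 2 +
      m.choose 2 * (x ^ 2 + x + 1) ^ 2 * (3 - 7 * (x ^ 2 + x + 1)) + E := by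
  set Y : K := -((x ^ 2 + x + 1) * (1 - x)) with hY
  set Y' : K := -(((-1 - x) ^ 2 + (-1 - x) + 1) * (1 - (-1 - x))) with hY'
  have hYv : v Y ≤ v (x ^ 2 + x + 1) := h.y_le
  have hYv' : v Y' ≤ v (x ^ 2 + x + 1) := by
    have h3 := h.swap.y_le
    rw [hY']
    rw [eta_swap x] at h3 ⊢
    exact h3
  have h1 := T2 v h.two (hYv.trans h.eta_le) m
  have h2 := T2 v h.two (hYv'.trans h.eta_le) m
  set E := (1 + Y) ^ m - 1 - m * Y - m.choose 2 * Y ^ 2 with hE
  set E' := (1 + Y') ^ m - 1 - m * Y' - m.choose 2 * Y' ^ 2 with hE'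
  have hm0 := apply_nonneg v (m : K)
  have hm1 := apply_nonneg v ((m - 1 : ℕ) : K)
  refine ⟨x * E + (-1 - x) * E', ?_, ?_⟩
  · apply v_add_le
    · rw [map_mul]
      have := apply_nonneg v E
      have := apply_nonneg v Y
      calc v x * v E ≤ 1 * (v (m : K) * v ((m - 1 : ℕ) : K) * v Y ^ 2) := by
            have := h.le
            gcongr
        _ ≤ _ := by rw [one_mul]; gcongr
    · rw [map_mul]
      have := apply_nonneg v E'
      have := apply_nonneg v Y'
      calc v (-1 - x) * v E' ≤ 1 * (v (m : K) * v ((m - 1 : ℕ) : K) * v Y' ^ 2) := by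
            have := h.le'
            gcongr
        _ ≤ _ := by rw [one_mul]; gcongr
  · have e1 : x ^ (3 * m + 1) = x * (1 + Y) ^ m := by
      rw [pow_succ, pow_mul, cube x, mul_comm]
    have e2 : (-1 - x) ^ (3 * m + 1) = (-1 - x) * (1 + Y') ^ m := by
      rw [pow_succ, pow_mul, cube (-1 - x), mul_comm]
    have e3 : (1 + Y) ^ m = E + 1 + m * Y + m.choose 2 * Y ^ 2 := by rw [hE]; ring
    have e4 : (1 + Y') ^ m = E' + 1 + m * Y' + m.choose 2 * Y' ^ 2 := by rw [hE']; ring
    unfold P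
    rw [e1, e2, e3, e4, hY, hY']
    ring

lemma At2.P1_le (m : ℕ) :
    v (P x (3 * m + 1)) * v (2 : K) ≤ v (m : K) * v (x ^ 2 + x + 1) ^ 2 := by
  obtain ⟨E, hE, e⟩ := h.P1_expand m
  have h20 := h.two_pos
  have h21 := h.two
  have hm0 := apply_nonneg v (m : K)
  have hm1 := natCast_le_one v (m - 1)
  have he0 := h.eta_pos
  have hc := choose_two_val v m
  have hC0 := apply_nonneg v (m.choose 2 : K)
  set η := x ^ 2 + x + 1 with hη
  have h37 : v (3 - 7 * η) ≤ 1 := by
    apply v_sub_le v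
    · exact_mod_cast natCast_le_one v 3
    · rw [map_mul]
      have h7 : v (7 : K) ≤ 1 := by exact_mod_cast natCast_le_one v 7
      exact mul_le_one₀ h7 he0.le h.small.le
  rw [← le_div_iff₀ h20, e]
  apply v_add_le
  · apply v_add_le
    · rw [le_div_iff₀ h20, map_mul, map_mul, map_pow]
      calc v (2 : K) * v (m : K) * v η ^ 2 * v (2 : K) =
            (v (2 : K) * v (2 : K)) * (v (m : K) * v η ^ 2) := by ring
        _ ≤ (1 * 1) * (v (m : K) * v η ^ 2) := by gcongr
        _ = _ := by ring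
    · rw [le_div_iff₀ h20, map_mul, map_mul, map_pow]
      have := apply_nonneg v (3 - 7 * η)
      calc v (m.choose 2 : K) * v η ^ 2 * v (3 - 7 * η) * v (2 : K) =
            (v (m.choose 2 : K) * v (2 : K)) * v η ^ 2 * v (3 - 7 * η) := by ring
        _ = (v (m : K) * v ((m - 1 : ℕ) : K)) * v η ^ 2 * v (3 - 7 * η) := by rw [hc]
        _ ≤ (v (m : K) * 1) * v η ^ 2 * 1 := by gcongr
        _ = _ := by ring
  · rw [le_div_iff₀ h20]
    calc v E * v (2 : K) ≤ (v (m : K) * v ((m - 1 : ℕ) : K) * v η ^ 2) * 1 := by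
          have := apply_nonneg v E
          have := apply_nonneg v ((m - 1 : ℕ) : K)
          gcongr
      _ ≤ (v (m : K) * 1 * v η ^ 2) * 1 := by gcongr
      _ = _ := by ring

lemma At2.P1_eq {m : ℕ} (hm : Even m) (hm0 : m ≠ 0) :
    v (P x (3 * m + 1)) * v (2 : K) = v (m : K) * v (x ^ 2 + x + 1) ^ 2 := by
  obtain ⟨E, hE, e⟩ := h.P1_expand m
  have h20 := h.two_pos
  have h21 := h.two
  have hmK : (m : K) ≠ 0 := by exact_mod_cast hm0
  have hm0' : 0 < v (m : K) := FinitePlace.pos_iff.mpr hmK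
  have he0 := h.eta_pos
  have hc := choose_two_val v m
  have hmodd : v ((m - 1 : ℕ) : K) = 1 := by
    apply odd_one v h.two
    obtain ⟨k, rfl⟩ := hm
    exact ⟨k - 1, by omega⟩
  rw [hmodd, mul_one] at hc hE
  set η := x ^ 2 + x + 1 with hη
  have hmain : v (m.choose 2 * η ^ 2 * 3) * v (2 : K) = v (m : K) * v η ^ 2 := by
    rw [map_mul, map_mul, map_pow, h.three, mul_one]
    calc v (m.choose 2 : K) * v η ^ 2 * v (2 : K) = (v (m.choose 2 : K) * v (2 : K)) * v η ^ 2 := by
          ring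
      _ = _ := by rw [hc]
  have hX : 0 < v (m : K) * v η ^ 2 := by positivity
  have hrest : v (P x (3 * m + 1) - m.choose 2 * η ^ 2 * 3) < v (m.choose 2 * η ^ 2 * 3) := by
    have e2 : P x (3 * m + 1) - m.choose 2 * η ^ 2 * 3 =
        2 * m * η ^ 2 - m.choose 2 * η ^ 2 * (7 * η) + E := by
      rw [e]
      ring
    have e3 : v (m.choose 2 * η ^ 2 * 3) = v (m : K) * v η ^ 2 / v (2 : K) := by
      rw [← hmain]
      field_simp
    rw [e2, e3]
    apply v_add_lt
    · apply v_sub_lt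
      · rw [lt_div_iff₀ h20, map_mul, map_mul, map_pow]
        calc v (2 : K) * v (m : K) * v η ^ 2 * v (2 : K) =
              (v (2 : K) * v (2 : K)) * (v (m : K) * v η ^ 2) := by ring
          _ < (1 * 1) * (v (m : K) * v η ^ 2) := by gcongr
          _ = _ := by ring
      · rw [lt_div_iff₀ h20, map_mul, map_mul, map_pow, map_mul]
        have h7 : v (7 : K) ≤ 1 := by exact_mod_cast natCast_le_one v 7
        have := apply_nonneg v (7 : K)
        have hsm := h.small
        calc v (m.choose 2 : K) * v η ^ 2 * (v 7 * v η) * v (2 : K) =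
              (v (m.choose 2 : K) * v (2 : K)) * v η ^ 2 * (v 7 * v η) := by ring
          _ = (v (m : K) * v η ^ 2) * (v 7 * v η) := by rw [hc]
          _ ≤ (v (m : K) * v η ^ 2) * (1 * v η) := by gcongr
          _ < (v (m : K) * v η ^ 2) * (1 * 1) := by gcongr
          _ = _ := by ring
    · rw [lt_div_iff₀ h20]
      calc v E * v (2 : K) ≤ (v (m : K) * v η ^ 2) * v (2 : K) := by gcongr
        _ < (v (m : K) * v η ^ 2) * 1 := by gcongr
        _ = _ := by ring
  rw [v_eq_of_sub_lt v hrest, hmain]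

lemma At2.P2_eq {m : ℕ} (hm : Odd m) : v (P x (3 * m + 2)) = v (x ^ 2 + x + 1) := by
  obtain ⟨k, rfl⟩ : ∃ k, m = k + 1 := ⟨m - 1, by have := hm.pos; omega⟩
  have h20 := h.two_pos
  have h21 := h.two
  have he0 := h.eta_pos
  set Y : K := -((x ^ 2 + x + 1) * (1 - x)) with hY
  set Y' : K := -(((-1 - x) ^ 2 + (-1 - x) + 1) * (1 - (-1 - x))) with hY'
  have hYv : v Y ≤ v (x ^ 2 + x + 1) := h.y_le
  have hYv' : v Y' ≤ v (x ^ 2 + x + 1) := by
    have h3 := h.swap.y_le
    rw [hY']
    rw [eta_swap x] at h3 ⊢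
    exact h3
  obtain ⟨G, hG, e⟩ := F1 v (y := 1) (z := Y) (by rw [map_one]) (hYv.trans h.small.le) k
  obtain ⟨G', hG', e'⟩ := F1 v (y := 1) (z := Y') (by rw [map_one]) (hYv'.trans h.small.le) k
  rw [one_pow, one_pow, mul_one] at e e'
  set η := x ^ 2 + x + 1 with hη
  have hodd : v (((3 * (k + 1) + 2 : ℕ) : K) * η) = v η := by
    rw [map_mul, odd_one v h.two, one_mul]
    obtain ⟨l, hl⟩ := hm
    exact ⟨3 * l + 2, by omega⟩
  rw [← hodd]
  apply v_eq_of_sub_lt
  rw [hodd]
  have e1 : x ^ (3 * (k + 1) + 2) = x ^ 2 * (1 + Y) ^ (k + 1) := by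
    rw [pow_add, pow_mul, cube x, mul_comm]
  have e2 : (-1 - x) ^ (3 * (k + 1) + 2) = (-1 - x) ^ 2 * (1 + Y') ^ (k + 1) := by
    rw [pow_add, pow_mul, cube (-1 - x), mul_comm]
  have e3 : P x (3 * (k + 1) + 2) - ((3 * (k + 1) + 2 : ℕ) : K) * η =
      -((5 * (k + 1) : ℕ) : K) * η ^ 2 + (x ^ 2 * (Y ^ 2 * G) + (-1 - x) ^ 2 * (Y' ^ 2 * G')) := by
    unfold P
    rw [e1, e2, e, e']
    push_cast
    rw [hY, hY', hη]
    ring
  rw [e3]
  have hlt : v η ^ 2 < v η := by
    rw [sq]
    calc v η * v η < v η * 1 := by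
          have := h.small
          gcongr
      _ = v η := mul_one _
  refine lt_of_le_of_lt ?_ hlt
  apply v_add_le
  · rw [map_mul, map_neg_eq_map, map_pow]
    calc _ ≤ 1 * v η ^ 2 := by
          have := natCast_le_one v (5 * (k + 1))
          gcongr
      _ = _ := one_mul _
  · apply v_add_le
    · rw [map_mul, map_mul, map_pow, map_pow]
      have := apply_nonneg v x
      have := apply_nonneg v Y
      have := apply_nonneg v G
      calc v x ^ 2 * (v Y ^ 2 * v G) ≤ 1 ^ 2 * (v η ^ 2 * 1) := by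
            have := h.le
            gcongr
        _ = _ := by ring
    · rw [map_mul, map_mul, map_pow, map_pow]
      have := apply_nonneg v (-1 - x)
      have := apply_nonneg v Y'
      have := apply_nonneg v G'
      calc v (-1 - x) ^ 2 * (v Y' ^ 2 * v G') ≤ 1 ^ 2 * (v η ^ 2 * 1) := by
            have := h.le'
            gcongr
        _ = _ := by ring

end

end Pool.Agent.H577.CN
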